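import Mathlib

/-!
Cauchy-Schwarz for functions which are invariant in one direction.
-/

set_option autoImplicit false

namespace Pool.Agent.H614.GV

open Finset

variable {V : Type} [AddCommGroup V]

/-- the sums over `B` change little under the shifts by `h v`, `h < H` -/
def Inv (B : Finset V) (v : V) (H : ℕ) (δ : ℝ) : Prop :=
  ∀ h : Fin H, ∀ g : V → ℝ, (∀ y, |g y| ≤ 1) →
    |∑ y ∈ B, g y - ∑ y ∈ B, g (y + ((h : ℕ) : ℤ) • v)| ≤ δ * B.card

/-- the sums over the cubes -/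
noncomputable def XX {t : ℕ} (B : Finset V) (v : Fin t → V) (H : ℕ) (f : V → ℝ) : ℝ :=
  ∑ h : Fin t → Bool → Fin H, ∑ y ∈ B, ∏ ω : Fin t → Bool, f (y + ∑ i, ((h i (ω i) : ℕ) : ℤ) • v i)

/-- the product of two translates -/
def two (f : V → ℝ) (v : V) {H : ℕ} (p : Bool → Fin H) (y : V) : ℝ :=
  f (y + ((p false : ℕ) : ℤ) • v) * f (y + ((p true : ℕ) : ℤ) • v)

lemma XX_zero (B : Finset V) (v : Fin 0 → V) (H : ℕ) (f : V → ℝ) : XX B v H f = ∑ y ∈ B, f y := by
  unfold XX
  simp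

lemma XX_succ {t : ℕ} (B : Finset V) (v : Fin (t + 1) → V) (H : ℕ) (f : V → ℝ) :
    XX B v H f = ∑ p : Bool → Fin H, XX B (Fin.tail v) H (two f (v 0) p) := by
  unfold XX
  rw [← Fintype.sum_prod_type']
  rw [← (Fin.consEquiv (fun _ : Fin (t + 1) => Bool → Fin H)).sum_comp]
  refine Fintype.sum_congr _ _ fun ph => ?_
  refine sum_congr rfl fun y _ => ?_
  rw [← (Fin.consEquiv (fun _ : Fin (t + 1) => Bool)).prod_comp, Fintype.prod_prod_type, Fintype.prod_bool, mul_comm,
    ← prod_mul_distrib]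
  refine prod_congr rfl fun ω _ => ?_
  unfold two
  congr 2
  · rw [Fin.sum_univ_succ]
    simp only [Fin.consEquiv_apply, Fin.cons_zero, Fin.cons_succ, Fin.tail]
    abel
  · rw [Fin.sum_univ_succ]
    simp only [Fin.consEquiv_apply, Fin.cons_zero, Fin.cons_succ, Fin.tail]
    abel

/-- the constants -/
noncomputable def CC : ℕ → ℝ
  | 0 => 0
  | t + 1 => CC t + 4 ^ (2 ^ t)

lemma CC_nonneg (t : ℕ) : 0 ≤ CC t := by
  induction t with
  | zero => exact le_rfl
  | succ t ih =>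
    unfold CC
    positivity

lemma pow_step {Y δ : ℝ} (hY0 : 0 ≤ Y) (hY1 : Y ≤ 1) (hδ0 : 0 ≤ δ) (hδ1 : δ ≤ 1) (m : ℕ) :
    (Y + 3 * δ) ^ m ≤ Y ^ m + (4 ^ m - 1) * δ := by
  induction m with
  | zero => simp
  | succ m ih =>
    have h1 : Y ^ m ≤ 1 := pow_le_one₀ hY0 hY1
    have h0 : 0 ≤ Y ^ m := pow_nonneg hY0 m
    have h4 : (1 : ℝ) ≤ 4 ^ m := one_le_pow₀ (by norm_num)
    calc (Y + 3 * δ) ^ (m + 1) = (Y + 3 * δ) ^ m * (Y + 3 * δ) := pow_succ _ _
      _ ≤ (Y ^ m + (4 ^ m - 1) * δ) * (Y + 3 * δ) := mul_le_mul_of_nonneg_right ih (by linarith)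
      _ = Y ^ (m + 1) + (3 * Y ^ m + (4 ^ m - 1) * (Y + 3 * δ)) * δ := by ring
      _ ≤ Y ^ (m + 1) + (4 ^ (m + 1) - 1) * δ := by
        have h5 : 3 * Y ^ m + (4 ^ m - 1) * (Y + 3 * δ) ≤ 4 ^ (m + 1) - 1 := by
          have : (4 ^ m - 1) * (Y + 3 * δ) ≤ (4 ^ m - 1) * 4 := mul_le_mul_of_nonneg_left (by linarith) (by linarith)
          rw [pow_succ]
          linarith
        have := mul_le_mul_of_nonneg_right h5 hδ0
        linarith

lemma jensen {ι : Type} [Fintype ι] (hι : 0 < Fintype.card ι) (Z : ι → ℝ) (t : ℕ) :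
    ((∑ p, Z p) / Fintype.card ι) ^ (2 ^ t) ≤ (∑ p, Z p ^ (2 ^ t)) / Fintype.card ι := by
  rcases Nat.eq_zero_or_pos t with rfl | ht
  · simp
  · have hι0 : (0 : ℝ) < Fintype.card ι := by exact_mod_cast hι
    have h := Real.pow_arith_mean_le_arith_mean_pow_of_even (s := (univ : Finset ι)) (fun _ => 1 / (Fintype.card ι : ℝ)) Z
      (fun _ _ => by positivity) (by rw [sum_const, card_univ, nsmul_eq_mul]; field_simp)
      (n := 2 ^ t) (by
        rw [Nat.even_pow]
        exact ⟨even_two, by omega⟩)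
    rw [← mul_sum, ← mul_sum] at h
    rw [div_eq_inv_mul, div_eq_inv_mul, ← one_div]
    exact h

/-- **The generalised von Neumann inequality.** -/
theorem cs (B : Finset V) (hB : B.Nonempty) (H : ℕ) (hH : 1 ≤ H) (δ : ℝ) (hδ0 : 0 ≤ δ) (hδ1 : δ ≤ 1) (t : ℕ) :
    ∀ (v : Fin t → V), (∀ i, Inv B (v i) H δ) → ∀ (f : V → ℝ), (∀ y, |f y| ≤ 1) → ∀ F : Fin t → V → ℝ,
      (∀ i y, |F i y| ≤ 1) → (∀ i y, F i (y + v i) = F i y) →
      ((∑ y ∈ B, f y * ∏ i, F i y) / B.card) ^ (2 ^ t) ≤ CC t * δ + XX B v H f / ((H : ℝ) ^ (2 * t) * B.card) := by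
  have hBc : (0 : ℝ) < B.card := by exact_mod_cast hB.card_pos
  have hH0 : (0 : ℝ) < H := by exact_mod_cast hH
  induction t with
  | zero =>
    intro v _ f _ F _ _
    rw [XX_zero]
    simp [CC]
  | succ t ih =>
    intro v hinv f hf F hF1 hF
    have : Nonempty (Fin H) := ⟨⟨0, hH⟩⟩
    set G : V → ℝ := fun y => f y * ∏ i : Fin t, F i.succ y with hG
    have hG1 : ∀ y, |G y| ≤ 1 := by
      intro y
      rw [hG]
      simp only
      rw [abs_mul, abs_prod]
      exact mul_le_one₀ (hf y) (prod_nonneg fun i _ => abs_nonneg _) (prod_le_one (fun i _ => abs_nonneg _) fun i _ => hF1 _ _)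
    have hF0 : ∀ (n : ℕ) (y : V), F 0 (y + (n : ℤ) • v 0) = F 0 y := by
      intro n
      induction n with
      | zero => intro y; simp
      | succ n ihn =>
        intro y
        have : y + ((n + 1 : ℕ) : ℤ) • v 0 = (y + (n : ℤ) • v 0) + v 0 := by
          push_cast
          rw [add_smul, one_smul]
          abel
        rw [this, hF 0, ihn]
    set S : ℝ := ∑ y ∈ B, f y * ∏ i, F i y with hS
    have hS' : S = ∑ y ∈ B, G y * F 0 y := by
      rw [hS]
      refine sum_congr rfl fun y _ => ?_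
      rw [Fin.prod_univ_succ, hG]
      ring
    -- the averages
    set A : V → ℝ := fun y => ∑ h : Fin H, G (y + ((h : ℕ) : ℤ) • v 0) with hA
    have hA1 : ∀ y, |A y| ≤ H := by
      intro y
      rw [hA]
      refine (abs_sum_le_sum_abs _ _).trans ((sum_le_sum fun h _ => hG1 _).trans ?_)
      simp
    have h1 : |S - (∑ y ∈ B, F 0 y * A y) / H| ≤ δ * B.card := by
      have e1 : S - (∑ y ∈ B, F 0 y * A y) / H = (∑ h : Fin H, (S - ∑ y ∈ B, G (y + ((h : ℕ) : ℤ) • v 0) *
          F 0 (y + ((h : ℕ) : ℤ) • v 0))) / H := by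
        rw [sum_sub_distrib, sum_const, card_univ, Fintype.card_fin, nsmul_eq_mul, sub_div, mul_div_cancel_left₀ _ hH0.ne']
        congr 2
        rw [hA]
        simp only [mul_sum]
        rw [sum_comm]
        refine sum_congr rfl fun h _ => sum_congr rfl fun y _ => ?_
        rw [hF0]
        ring
      rw [e1, abs_div, Nat.abs_cast, div_le_iff₀ hH0]
      refine (abs_sum_le_sum_abs _ _).trans ?_
      calc ∑ h : Fin H, |S - ∑ y ∈ B, G (y + ((h : ℕ) : ℤ) • v 0) * F 0 (y + ((h : ℕ) : ℤ) • v 0)|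
          ≤ ∑ _h : Fin H, δ * B.card := by
            refine sum_le_sum fun h _ => ?_
            rw [hS']
            refine hinv 0 h (fun y => G y * F 0 y) fun y => ?_
            rw [abs_mul]
            exact mul_le_one₀ (hG1 y) (abs_nonneg _) (hF1 _ _)
        _ = δ * B.card * H := by
            rw [sum_const, card_univ, Fintype.card_fin, nsmul_eq_mul]
            ring
    set Y : ℝ := (∑ y ∈ B, A y ^ 2) / (H ^ 2 * B.card) with hY
    have hY0 : 0 ≤ Y := div_nonneg (sum_nonneg fun y _ => sq_nonneg _) (by positivity)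
    have hY1 : Y ≤ 1 := by
      rw [hY, div_le_one (by positivity)]
      calc ∑ y ∈ B, A y ^ 2 ≤ ∑ _y ∈ B, (H : ℝ) ^ 2 := by
            refine sum_le_sum fun y _ => ?_
            rw [← sq_abs]
            exact pow_le_pow_left₀ (abs_nonneg _) (hA1 y) 2
        _ = H ^ 2 * B.card := by rw [sum_const, nsmul_eq_mul]; ring
    set T : ℝ := |(∑ y ∈ B, F 0 y * A y) / H| / B.card with hT
    have hT0 : 0 ≤ T := by positivity
    have hT2 : T ^ 2 ≤ Y := by
      have q1 : (∑ y ∈ B, F 0 y * A y) ^ 2 ≤ B.card * ∑ y ∈ B, A y ^ 2 := by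
        refine sq_sum_le_card_mul_sum_sq.trans ?_
        apply mul_le_mul_of_nonneg_left _ hBc.le
        refine sum_le_sum fun y _ => ?_
        rw [mul_pow]
        apply mul_le_of_le_one_left (sq_nonneg _)
        rw [sq_le_one_iff_abs_le_one]
        exact hF1 _ _
      rw [hT, hY, div_pow, sq_abs, div_pow, div_div, div_le_div_iff₀ (by positivity) (by positivity)]
      calc (∑ y ∈ B, F 0 y * A y) ^ 2 * ((H : ℝ) ^ 2 * B.card)
          ≤ (B.card * ∑ y ∈ B, A y ^ 2) * ((H : ℝ) ^ 2 * B.card) := mul_le_mul_of_nonneg_right q1 (by positivity)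
        _ = (∑ y ∈ B, A y ^ 2) * ((H : ℝ) ^ 2 * (B.card : ℝ) ^ 2) := by ring
    have hT1 : T ≤ 1 := by
      by_contra hc
      push Not at hc
      nlinarith
    have h2 : (S / B.card) ^ 2 ≤ Y + 3 * δ := by
      have q1 : |S / B.card| ≤ δ + T := by
        rw [abs_div, Nat.abs_cast, div_le_iff₀ hBc]
        have q2 := abs_sub_abs_le_abs_sub S ((∑ y ∈ B, F 0 y * A y) / H)
        have q3 : |(∑ y ∈ B, F 0 y * A y) / H| = T * B.card := by
          rw [hT]
          field_simp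
        rw [q3] at q2
        linarith
      rw [← sq_abs]
      calc |S / B.card| ^ 2 ≤ (δ + T) ^ 2 := pow_le_pow_left₀ (abs_nonneg _) q1 2
        _ = T ^ 2 + 2 * δ * T + δ * δ := by ring
        _ ≤ Y + 2 * δ * 1 + δ * 1 := by
          have q4 : 2 * δ * T ≤ 2 * δ * 1 := mul_le_mul_of_nonneg_left hT1 (by linarith)
          have q5 : δ * δ ≤ δ * 1 := mul_le_mul_of_nonneg_left hδ1 hδ0
          linarith
        _ = Y + 3 * δ := by ring
    -- the second moment
    set Z : (Bool → Fin H) → ℝ := fun p => (∑ y ∈ B, two f (v 0) p y * ∏ i : Fin t, two (F i.succ) (v 0) p y) / B.card with hZ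
    have hcard : (Fintype.card (Bool → Fin H) : ℝ) = (H : ℝ) ^ 2 := by
      rw [Fintype.card_fun, Fintype.card_bool, Fintype.card_fin]
      push_cast
      rfl
    have hYZ : Y = (∑ p, Z p) / Fintype.card (Bool → Fin H) := by
      rw [hcard, hY, hZ]
      simp only
      rw [← sum_div, div_div, mul_comm (B.card : ℝ)]
      congr 1
      rw [sum_comm]
      refine sum_congr rfl fun y _ => ?_
      rw [sq, hA]
      simp only
      rw [sum_mul_sum]
      have e2 : ∀ p : Bool → Fin H, two f (v 0) p y * ∏ i : Fin t, two (F i.succ) (v 0) p y =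
          G (y + ((p false : ℕ) : ℤ) • v 0) * G (y + ((p true : ℕ) : ℤ) • v 0) := by
        intro p
        unfold two
        rw [hG, prod_mul_distrib]
        ring
      simp only [e2]
      rw [← Fintype.sum_prod_type']
      refine (Fintype.sum_equiv (Equiv.boolArrowEquivProd (Fin H)) _ _ fun p => ?_).symm
      simp [Equiv.boolArrowEquivProd]
    have h3 : Y ^ (2 ^ t) ≤ (∑ p, Z p ^ (2 ^ t)) / Fintype.card (Bool → Fin H) := by
      rw [hYZ]
      exact jensen Fintype.card_pos Z t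
    have h4 : ∀ p, Z p ^ (2 ^ t) ≤ CC t * δ + XX B (Fin.tail v) H (two f (v 0) p) / ((H : ℝ) ^ (2 * t) * B.card) := by
      intro p
      refine ih (Fin.tail v) (fun i => hinv i.succ) (two f (v 0) p) ?_ (fun i => two (F i.succ) (v 0) p) ?_ ?_
      · intro y
        unfold two
        rw [abs_mul]
        exact mul_le_one₀ (hf _) (abs_nonneg _) (hf _)
      · intro i y
        unfold two
        rw [abs_mul]
        exact mul_le_one₀ (hF1 _ _) (abs_nonneg _) (hF1 _ _)
      · intro i y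
        unfold two Fin.tail
        rw [show y + v i.succ + ((p false : ℕ) : ℤ) • v 0 = (y + ((p false : ℕ) : ℤ) • v 0) + v i.succ by abel,
          show y + v i.succ + ((p true : ℕ) : ℤ) • v 0 = (y + ((p true : ℕ) : ℤ) • v 0) + v i.succ by abel, hF, hF]
    have h5 : (∑ p, Z p ^ (2 ^ t)) / Fintype.card (Bool → Fin H) ≤
        CC t * δ + XX B v H f / ((H : ℝ) ^ (2 * (t + 1)) * B.card) := by
      rw [hcard, div_le_iff₀ (by positivity)]
      refine (sum_le_sum fun p _ => h4 p).trans (le_of_eq ?_)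
      rw [sum_add_distrib, sum_const, card_univ, nsmul_eq_mul, hcard, ← sum_div, ← XX_succ]
      have : (H : ℝ) ^ (2 * (t + 1)) = H ^ (2 * t) * H ^ 2 := by ring
      rw [this]
      field_simp
    calc (S / B.card) ^ (2 ^ (t + 1)) = ((S / B.card) ^ 2) ^ (2 ^ t) := by rw [← pow_mul]; congr 1; ring
      _ ≤ (Y + 3 * δ) ^ (2 ^ t) := pow_le_pow_left₀ (sq_nonneg _) h2 _
      _ ≤ Y ^ (2 ^ t) + (4 ^ (2 ^ t) - 1) * δ := pow_step hY0 hY1 hδ0 hδ1 _
      _ ≤ (CC t * δ + XX B v H f / ((H : ℝ) ^ (2 * (t + 1)) * B.card)) + (4 ^ (2 ^ t) - 1) * δ := by linarith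
      _ ≤ CC (t + 1) * δ + XX B v H f / ((H : ℝ) ^ (2 * (t + 1)) * B.card) := by
        have e3 : CC (t + 1) = CC t + 4 ^ (2 ^ t) := rfl
        rw [e3]
        linarith

end Pool.Agent.H614.GV
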