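import Pool.Agent.H614.GV.Rec

/-!
Multiple recurrence in sets of integer vectors.
-/

set_option autoImplicit false

namespace Pool.Agent.H614.GV

open Finset Filter Topology MeasureTheory
open Pool.Agent.Results.MP_a14ce1_nt.FixedShiftPatterns renaming box → fbox

/-- the torus -/
abbrev Tr (d L : ℕ) : Type := Fin d → ZMod L

/-- reduction modulo `L` -/
def red {d : ℕ} (L : ℕ) (a : Fin d → ℤ) : Tr d L := fun s => (a s : ZMod L)

lemma red_add {d : ℕ} (L : ℕ) (a b : Fin d → ℤ) : red L (a + b) = red L a + red L b := by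
  funext s
  simp [red]

lemma uni_real {Y : Type} [Fintype Y] [Nonempty Y] (B : Set Y) :
    @Measure.real Y ⊤ (@ProbabilityTheory.uniformOn Y ⊤ Set.univ) B = (B.ncard : ℝ) / Fintype.card Y := by
  let _ : MeasurableSpace Y := ⊤
  have : MeasurableSingletonClass Y := ⟨fun _ => MeasurableSpace.measurableSet_top⟩
  rw [Measure.real, ProbabilityTheory.uniformOn_univ, ENNReal.toReal_div,
    Measure.count_apply MeasurableSpace.measurableSet_top]
  simp only [ENNReal.toReal_natCast]
  congr 1
  rw [← (Set.toFinite B).cast_ncard_eq, ENat.toENNReal_coe, ENNReal.toReal_natCast]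

lemma uni_pres {Y : Type} [Fintype Y] [Nonempty Y] (e : Y ≃ Y) :
    @MeasurePreserving Y Y ⊤ ⊤ e (@ProbabilityTheory.uniformOn Y ⊤ Set.univ) (@ProbabilityTheory.uniformOn Y ⊤ Set.univ) := by
  let _ : MeasurableSpace Y := ⊤
  have : MeasurableSingletonClass Y := ⟨fun _ => MeasurableSpace.measurableSet_top⟩
  refine ⟨measurable_from_top, ?_⟩
  ext B hB
  rw [Measure.map_apply measurable_from_top hB, ProbabilityTheory.uniformOn_univ, ProbabilityTheory.uniformOn_univ,
    Measure.count_apply MeasurableSpace.measurableSet_top, Measure.count_apply MeasurableSpace.measurableSet_top]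
  congr 2
  exact Set.encard_preimage_of_bijective e.bijective B

/-- **Configurations in sets of integer vectors.** -/
theorem comb {S : Set ℕ} (hS : Recur S) (d l : ℕ) (w : Fin (l + 1) → Fin d → ℤ) (δ : ℝ) (hδ : 0 < δ) :
    ∃ (M : ℕ) (κ : ℝ), 0 < κ ∧ ∀ N : ℕ, M ≤ N → ∀ (u : Fin d → ℤ) (A : Finset (Fin d → ℤ)),
      A ⊆ fbox u (fun _ => N) → δ * (N : ℝ) ^ d ≤ A.card → ∃ n : ℕ, 1 ≤ n ∧ n ≤ M ∧ n ∈ S ∧
        κ * (N : ℝ) ^ d ≤ ({x : Fin d → ℤ | ∀ i, x + (n : ℤ) • w i ∈ A}.ncard : ℝ) := by
  classical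
  obtain ⟨κ, X₀, hκ, h⟩ := hS l (δ / 2 ^ d) (by positivity)
  set X₁ : ℕ := max X₀ 3 with hX₁
  set W : ℕ := ∑ i, ∑ s, (w i s).natAbs with hW
  refine ⟨X₁ + 2 * X₁ * W + 1, κ / 2, by positivity, fun N hN u A hAu hA => ?_⟩
  have hN1 : 0 < N := by omega
  have hN0 : (0 : ℝ) < N := by exact_mod_cast hN1
  have hNW : 2 * X₁ * W < N := by omega
  have : NeZero (2 * N) := ⟨by omega⟩
  let mX : MeasurableSpace (Tr d (2 * N)) := ⊤
  have : MeasurableSingletonClass (Tr d (2 * N)) := ⟨fun _ => trivial⟩
  set μ : Measure (Tr d (2 * N)) := ProbabilityTheory.uniformOn Set.univ with hμ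
  have : IsProbabilityMeasure μ := ProbabilityTheory.isProbabilityMeasure_uniformOn Set.finite_univ Set.univ_nonempty
  set act : (Fin d → ℤ) → Tr d (2 * N) → Tr d (2 * N) := fun m x => red (2 * N) m + x with hact
  have ha : Acts μ act := by
    refine ⟨fun m => uni_pres (Equiv.addLeft (red (2 * N) m)), fun m m' x => ?_⟩
    rw [hact]
    simp only
    rw [red_add, add_assoc]
  have hcard : Fintype.card (Tr d (2 * N)) = (2 * N) ^ d := by
    rw [Fintype.card_fun, ZMod.card, Fintype.card_fin]
  -- the reduction is injective on short distances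
  have hinj : ∀ a b : Fin d → ℤ, red (2 * N) a = red (2 * N) b → (∀ s, |a s - b s| < 2 * N) → a = b := by
    intro a b hab hs
    funext s
    have h1 := congrFun hab s
    unfold red at h1
    rw [ZMod.intCast_eq_intCast_iff_dvd_sub] at h1
    have h2 : b s - a s = 0 := by
      apply Int.eq_zero_of_abs_lt_dvd h1
      rw [abs_sub_comm]
      have := hs s
      push_cast
      exact this
    linarith
  have hAs : ∀ a ∈ A, ∀ b ∈ A, ∀ s, |a s - b s| < N := by
    intro a haA b hbA s
    have h1 := hAu haA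
    have h2 := hAu hbA
    unfold fbox at h1 h2
    rw [Fintype.mem_piFinset] at h1 h2
    have h3 := mem_Ioc.1 (h1 s)
    have h4 := mem_Ioc.1 (h2 s)
    rw [abs_lt]
    constructor <;> linarith [h3.1, h3.2, h4.1, h4.2]
  set A' : Set (Tr d (2 * N)) := red (2 * N) '' (A : Set (Fin d → ℤ)) with hA'
  have hA'c : A'.ncard = A.card := by
    rw [hA', Set.InjOn.ncard_image, Set.ncard_coe_finset]
    intro a haA b hbA hab
    refine hinj a b hab fun s => ?_
    have := hAs a haA b hbA s
    have hN2 : (0 : ℤ) < N := by exact_mod_cast hN1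
    linarith
  have hμA : δ / 2 ^ d ≤ μ.real A' := by
    have e1 : μ.real A' = (A'.ncard : ℝ) / Fintype.card (Tr d (2 * N)) := uni_real A'
    rw [e1, hA'c, hcard]
    push_cast
    rw [mul_pow, div_le_div_iff₀ (by positivity) (by positivity)]
    calc δ * (2 ^ d * (N : ℝ) ^ d) = (δ * (N : ℝ) ^ d) * 2 ^ d := by ring
      _ ≤ A.card * 2 ^ d := mul_le_mul_of_nonneg_right hA (by positivity)
  have h1 := h X₁ (le_max_left _ _) (Fin d → ℤ) (Tr d (2 * N)) μ act ha A' trivial hμA w
  -- a good dilation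
  have h2 : ∃ n ∈ Icc 1 X₁, n ∈ S ∧ κ / 2 ≤ ret μ act w A' n := by
    by_contra hc
    push Not at hc
    have hlog1 : 1 < Real.log X₁ := by
      have e1 : (3 : ℝ) ≤ X₁ := by exact_mod_cast le_max_right X₀ 3
      have e2 : Real.exp 1 < X₁ := lt_of_lt_of_le (lt_trans Real.exp_one_lt_d9 (by norm_num)) e1
      rw [Real.lt_log_iff_exp_lt (by linarith)]
      exact e2
    have e1 : ∑ n ∈ Icc 1 X₁, in1 S n * ret μ act w A' n / n ≤ ∑ n ∈ Icc 1 X₁, (κ / 2) * (1 / n) := by
      refine sum_le_sum fun n hn => ?_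
      unfold in1
      split_ifs with hnS
      · rw [one_mul, mul_one_div]
        exact div_le_div_of_nonneg_right (hc n hn hnS).le (Nat.cast_nonneg _)
      · rw [zero_mul, zero_div]
        positivity
    rw [← mul_sum] at e1
    have e2 := Pool.Agent.H614.CW.harm_le X₁
    have e3 : (κ / 2) * ∑ n ∈ Icc 1 X₁, (1 : ℝ) / n ≤ (κ / 2) * (1 + Real.log X₁) :=
      mul_le_mul_of_nonneg_left e2 (by positivity)
    nlinarith
  obtain ⟨n, hn, hnS, hn2⟩ := h2
  rw [mem_Icc] at hn
  refine ⟨n, hn.1, by omega, hnS, ?_⟩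
  set B : Set (Tr d (2 * N)) := {x | ∀ i, act (n • w i) x ∈ A'} with hB
  have h3 : (κ / 2) * (N : ℝ) ^ d ≤ B.ncard := by
    have e1 : ret μ act w A' n = (B.ncard : ℝ) / Fintype.card (Tr d (2 * N)) := uni_real B
    rw [e1, hcard, le_div_iff₀ (by positivity)] at hn2
    refine le_trans ?_ hn2
    apply mul_le_mul_of_nonneg_left _ (by positivity)
    push_cast
    exact pow_le_pow_left₀ hN0.le (by linarith) d
  refine h3.trans ?_
  -- lifting
  have hlift : ∀ x ∈ B, ∃ y : Fin d → ℤ, red (2 * N) y = x ∧ ∀ i, y + (n : ℤ) • w i ∈ A := by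
    intro x hx
    obtain ⟨a₀, ha₀, h0⟩ := hx 0
    refine ⟨a₀ - (n : ℤ) • w 0, ?_, fun i => ?_⟩
    · have e1 : red (2 * N) (a₀ - (n : ℤ) • w 0) + red (2 * N) (n • w 0) = red (2 * N) a₀ := by
        rw [← red_add]
        congr 1
        rw [natCast_zsmul]
        abel
      have e2 : red (2 * N) (n • w 0) + x = red (2 * N) a₀ := h0.symm
      rw [← e2, add_comm] at e1
      exact add_left_cancel e1
    · obtain ⟨a₁, ha₁, h1⟩ := hx i
      have e3 : a₀ - (n : ℤ) • w 0 + (n : ℤ) • w i = a₁ := by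
        apply hinj
        · have e4 : red (2 * N) (a₀ - (n : ℤ) • w 0 + (n : ℤ) • w i) + red (2 * N) (n • w 0) =
              red (2 * N) a₀ + red (2 * N) (n • w i) := by
            rw [← red_add, ← red_add]
            congr 1
            rw [natCast_zsmul, natCast_zsmul]
            abel
          have e5 : red (2 * N) (n • w 0) + x = red (2 * N) a₀ := h0.symm
          have e6 : red (2 * N) (n • w i) + x = red (2 * N) a₁ := h1.symm
          have e7 : red (2 * N) (n • w 0) + red (2 * N) (a₀ - (n : ℤ) • w 0 + (n : ℤ) • w i) =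
              red (2 * N) (n • w 0) + red (2 * N) a₁ := by
            rw [add_comm, e4, ← e5, ← e6]
            abel
          exact add_left_cancel e7
        · intro s
          have q1 := hAs a₀ (by exact_mod_cast ha₀) a₁ (by exact_mod_cast ha₁) s
          have q2 : ∀ i, |w i s| ≤ (W : ℤ) := by
            intro i
            have : (w i s).natAbs ≤ W := by
              rw [hW]
              calc (w i s).natAbs ≤ ∑ s, (w i s).natAbs :=
                    single_le_sum (f := fun s => (w i s).natAbs) (fun _ _ => Nat.zero_le _) (mem_univ s)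
                _ ≤ ∑ i, ∑ s, (w i s).natAbs :=
                    single_le_sum (f := fun i => ∑ s, (w i s).natAbs) (fun _ _ => Nat.zero_le _) (mem_univ i)
            rw [Int.abs_eq_natAbs]
            exact_mod_cast this
          have q3 : |(n : ℤ) * w i s - n * w 0 s| ≤ 2 * X₁ * W := by
            have r1 : |(n : ℤ) * w i s| ≤ X₁ * W := by
              rw [abs_mul, Nat.abs_cast]
              exact mul_le_mul (by exact_mod_cast hn.2) (q2 i) (abs_nonneg _) (by positivity)
            have r2 : |(n : ℤ) * w 0 s| ≤ X₁ * W := by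
              rw [abs_mul, Nat.abs_cast]
              exact mul_le_mul (by exact_mod_cast hn.2) (q2 0) (abs_nonneg _) (by positivity)
            have := abs_sub ((n : ℤ) * w i s) (n * w 0 s)
            linarith
          have q4 : (2 * X₁ * W : ℤ) < N := by exact_mod_cast hNW
          have q5 : (a₀ - (n : ℤ) • w 0 + (n : ℤ) • w i) s - a₁ s = (a₀ s - a₁ s) + ((n : ℤ) * w i s - n * w 0 s) := by
            simp only [Pi.add_apply, Pi.sub_apply, Pi.smul_apply, smul_eq_mul]
            ring
          rw [q5]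
          have := abs_add_le (a₀ s - a₁ s) ((n : ℤ) * w i s - n * w 0 s)
          linarith
      rw [e3]
      exact_mod_cast ha₁
  choose! y hy1 hy2 using hlift
  have hfin : {x : Fin d → ℤ | ∀ i, x + (n : ℤ) • w i ∈ A}.Finite := by
    refine ((A.image fun a => a - (n : ℤ) • w 0).finite_toSet).subset ?_
    intro x hx
    rw [mem_coe, mem_image]
    exact ⟨x + (n : ℤ) • w 0, hx 0, by abel⟩
  have h4 : B.ncard ≤ {x : Fin d → ℤ | ∀ i, x + (n : ℤ) • w i ∈ A}.ncard := by
    refine Set.ncard_le_ncard_of_injOn y (fun x hx => hy2 x hx) ?_ hfin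
    intro x hx x' hx' hxx
    rw [← hy1 x hx, ← hy1 x' hx', hxx]
  exact_mod_cast h4

end Pool.Agent.H614.GV
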