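import Pool.Agent.H614.GV.Pat

/-!
Weights which are orthogonal to cylinder functions, and multiple ergodic averages.
-/

set_option autoImplicit false

namespace Pool.Agent.H614.GV

open Finset Filter Topology MeasureTheory
open Pool.Agent.Results.MP_a14ce1_nt.FixedShiftPatterns renaming box → fbox
open Pool.Agent.Results.MP_a14ce1_nt.FixedShiftPatterns (lam aff cls NotProp)
open Pool.Agent.Y958.U (LZ LZ_iff LZ_union LZ_bdd LZ_sub LZ_empty ls ls_eq li)

/-- the directions -/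
def vv (t : ℕ) : Fin (t + 1) → Fin (t + 1) → ℤ :=
  Fin.cons (Fin.cons 1 0) fun i => Fin.cons 1 (-(Pi.single i 1))

/-- the weight `w` is orthogonal to cylinder functions at the scales outside `E` -/
def Orth (E : Set ℕ) (w : ℕ → ℝ) : Prop :=
  ∀ (t : ℕ) (ε : ℝ), 0 < ε → ∃ N₀ : ℕ, ∀ N : ℕ, N₀ ≤ N → N ∉ E → ∀ F : Fin (t + 1) → (Fin (t + 1) → ℤ) → ℝ,
    (∀ i y, |F i y| ≤ 1) → (∀ i y, F i (y + vv t i) = F i y) →
    |∑ y ∈ fbox (fun _ => 0) (fun _ => N), w (y 0).toNat * ∏ i, F i y| ≤ ε * (N : ℝ) ^ (t + 1)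

/-- sums over cubes with a first coordinate -/
lemma sum_cube {t : ℕ} (N : ℕ) (g : (Fin (t + 1) → ℤ) → ℝ) :
    ∑ y ∈ fbox (fun _ : Fin (t + 1) => 0) (fun _ => N), g y =
      ∑ p ∈ fbox (fun _ : Fin t => 0) (fun _ => N), ∑ n ∈ Icc 1 N, g (Fin.cons (n : ℤ) p) := by
  rw [← sum_product']
  refine sum_bij' (fun (y : Fin (t + 1) → ℤ) _ => (Fin.tail y, (y 0).toNat))
    (fun pn _ => Fin.cons ((pn.2 : ℕ) : ℤ) pn.1) ?_ ?_ ?_ ?_ ?_
  · intro y hy
    unfold fbox at hy ⊢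
    rw [Fintype.mem_piFinset] at hy
    rw [mem_product, Fintype.mem_piFinset, mem_Icc]
    have h0 := mem_Ioc.1 (hy 0)
    refine ⟨fun s => hy s.succ, ?_⟩
    change (0 : ℤ) < y 0 ∧ y 0 ≤ 0 + (N : ℤ) at h0
    change 1 ≤ (y 0).toNat ∧ (y 0).toNat ≤ N
    omega
  · rintro ⟨p, n⟩ h
    unfold fbox at h ⊢
    rw [mem_product, Fintype.mem_piFinset, mem_Icc] at h
    rw [Fintype.mem_piFinset]
    intro s
    refine Fin.cases ?_ (fun i => ?_) s
    · rw [mem_Ioc]
      change (0 : ℤ) < n ∧ (n : ℤ) ≤ 0 + (N : ℤ)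
      have := h.2
      simp only at this
      omega
    · exact h.1 i
  · intro y hy
    unfold fbox at hy
    rw [Fintype.mem_piFinset] at hy
    have h0 := mem_Ioc.1 (hy 0)
    change (0 : ℤ) < y 0 ∧ y 0 ≤ 0 + (N : ℤ) at h0
    simp only
    rw [Int.toNat_of_nonneg (by omega)]
    exact Fin.cons_self_tail y
  · rintro ⟨p, n⟩ _
    simp
  · intro y hy
    unfold fbox at hy
    rw [Fintype.mem_piFinset] at hy
    have h0 := mem_Ioc.1 (hy 0)
    change (0 : ℤ) < y 0 ∧ y 0 ≤ 0 + (N : ℤ) at h0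
    simp only
    rw [Int.toNat_of_nonneg (by omega), Fin.cons_self_tail]

section
variable {M X : Type} [AddCommMonoid M]

/-- the sum -/
noncomputable def SS {t : ℕ} (w : ℕ → ℝ) (act : M → X → X) (g : Fin t → M) (f : Fin t → X → ℝ) (N : ℕ) (x : X) : ℝ :=
  ∑ n ∈ Icc 1 N, w n * ∏ i, f i (act (n • g i) x)

/-- the functions on the integers -/
noncomputable def FI {t : ℕ} (act : M → X → X) (g : Fin t → M) (f : Fin t → X → ℝ) (x : X) (i : Fin t)
    (y : Fin (t + 1) → ℤ) : ℝ :=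
  f i (act ((∑ j ∈ univ.erase i, (y j.succ).toNat • g j) + (y i.succ + y 0).toNat • g i) x)

/-- the element of the monoid -/
noncomputable def elt {t : ℕ} (g : Fin t → M) (p : Fin t → ℤ) : M := ∑ j, (p j).toNat • g j

lemma FI_eq {t : ℕ} (act : M → X → X) (hact : ∀ m m' x, act (m + m') x = act m (act m' x)) (g : Fin t → M)
    (f : Fin t → X → ℝ) (x : X) (i : Fin t) (p : Fin t → ℤ) (hp : ∀ j, 0 ≤ p j) (n : ℕ) :
    FI act g f x i (Fin.cons (n : ℤ) p) = f i (act (n • g i) (act (elt g p) x)) := by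
  unfold FI elt
  rw [← hact]
  congr 2
  simp only [Fin.cons_succ, Fin.cons_zero]
  have h1 : (p i + (n : ℤ)).toNat = n + (p i).toNat := by
    have := hp i
    omega
  rw [h1, add_smul, ← add_sum_erase univ (fun j => (p j).toNat • g j) (mem_univ i)]
  abel

lemma FI_inv {t : ℕ} (act : M → X → X) (g : Fin t → M) (f : Fin t → X → ℝ) (x : X) (i : Fin t)
    (y : Fin (t + 1) → ℤ) : FI act g f x i (y + vv t i.succ) = FI act g f x i y := by
  unfold FI vv
  congr 2
  simp only [Pi.add_apply, Fin.cons_succ, Fin.cons_zero, Pi.neg_apply, Pi.single_eq_same]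
  congr 1
  · refine sum_congr rfl fun j hj => ?_
    rw [Pi.single_eq_of_ne (ne_of_mem_erase hj), neg_zero, add_zero]
  · congr 2
    ring

/-- the pointwise estimate -/
lemma pointwise {E : Set ℕ} {w : ℕ → ℝ} (hw : Orth E w) (hw1 : ∀ n, |w n| ≤ 1) (t : ℕ) (ε : ℝ) (hε : 0 < ε) :
    ∃ N₀ : ℕ, ∀ N : ℕ, N₀ ≤ N → N ∉ E → ∀ (M X : Type) [AddCommMonoid M] (act : M → X → X),
      (∀ m m' x, act (m + m') x = act m (act m' x)) → ∀ (g : Fin t → M) (f : Fin t → X → ℝ),
      (∀ i x, |f i x| ≤ 1) → ∀ x, ∑ p ∈ fbox (fun _ : Fin t => 0) (fun _ => N),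
        SS w act g f N (act (elt g p) x) ^ 2 ≤ ε * (N : ℝ) ^ (t + 2) := by
  obtain ⟨N₀, hN₀⟩ := hw t ε hε
  refine ⟨N₀ + 1, fun N hN hNE M X _ act hact g f hf x => ?_⟩
  have hN1 : (0 : ℝ) < N := by exact_mod_cast (by omega : 0 < N)
  set G : (Fin t → ℤ) → ℝ := fun p => (1 / (N : ℝ)) * ∑ m ∈ Icc 1 N, w m * ∏ i, FI act g f x i (Fin.cons (m : ℤ) p)
    with hG
  have hFI1 : ∀ i y, |FI act g f x i y| ≤ 1 := fun i y => hf _ _
  have hG1 : ∀ p, |G p| ≤ 1 := by
    intro p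
    rw [hG]
    simp only
    rw [abs_mul, abs_of_pos (by positivity : (0 : ℝ) < 1 / N), one_div, inv_mul_le_iff₀ hN1, mul_one]
    refine (abs_sum_le_sum_abs _ _).trans ?_
    calc ∑ m ∈ Icc 1 N, |w m * ∏ i, FI act g f x i (Fin.cons (m : ℤ) p)| ≤ ∑ _m ∈ Icc 1 N, (1 : ℝ) := by
          refine sum_le_sum fun m _ => ?_
          rw [abs_mul, abs_prod]
          exact mul_le_one₀ (hw1 m) (prod_nonneg fun _ _ => abs_nonneg _)
            (prod_le_one (fun _ _ => abs_nonneg _) fun _ _ => hFI1 _ _)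
      _ = N := by simp
  set F : Fin (t + 1) → (Fin (t + 1) → ℤ) → ℝ := Fin.cons (fun y => G (Fin.tail y)) fun i => FI act g f x i with hF
  have h1 := hN₀ N (by omega) hNE F (fun i => by
    refine Fin.cases ?_ (fun i => ?_) i
    · intro y; exact hG1 _
    · intro y; exact hFI1 _ _) (fun i => by
    refine Fin.cases ?_ (fun i => ?_) i
    · intro y
      rw [hF]
      simp only [Fin.cons_zero]
      congr 1
      funext s
      unfold vv Fin.tail
      simp
    · intro y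
      rw [hF]
      simp only [Fin.cons_succ]
      exact FI_inv act g f x i y)
  have h2 : ∑ y ∈ fbox (fun _ : Fin (t + 1) => 0) (fun _ => N), w (y 0).toNat * ∏ i, F i y =
      (1 / (N : ℝ)) * ∑ p ∈ fbox (fun _ : Fin t => 0) (fun _ => N), SS w act g f N (act (elt g p) x) ^ 2 := by
    rw [sum_cube, mul_sum]
    refine sum_congr rfl fun p hp => ?_
    have hp0 : ∀ j, 0 ≤ p j := by
      intro j
      unfold fbox at hp
      rw [Fintype.mem_piFinset] at hp
      exact (mem_Ioc.1 (hp j)).1.le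
    have e1 : SS w act g f N (act (elt g p) x) = ∑ m ∈ Icc 1 N, w m * ∏ i, FI act g f x i (Fin.cons (m : ℤ) p) := by
      unfold SS
      refine sum_congr rfl fun m _ => ?_
      congr 1
      refine prod_congr rfl fun i _ => ?_
      rw [FI_eq act hact g f x i p hp0 m]
    have e2 : ∀ n ∈ Icc 1 N, w ((Fin.cons (n : ℤ) p : Fin (t + 1) → ℤ) 0).toNat *
        ∏ i, F i (Fin.cons (n : ℤ) p) = G p * (w n * ∏ i, FI act g f x i (Fin.cons (n : ℤ) p)) := by
      intro n _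
      rw [Fin.prod_univ_succ, hF]
      simp only [Fin.cons_zero, Fin.cons_succ, Int.toNat_natCast, Fin.tail_cons]
      ring
    rw [sum_congr rfl e2, ← mul_sum, hG]
    simp only
    rw [← e1]
    ring
  rw [h2, abs_of_nonneg (mul_nonneg (by positivity) (sum_nonneg fun _ _ => sq_nonneg _)), one_div,
    inv_mul_le_iff₀ hN1] at h1
  refine h1.trans (le_of_eq ?_)
  ring

/-- an action of a commutative monoid by measure preserving maps -/
structure Acts [MeasurableSpace X] (μ : Measure X) (act : M → X → X) : Prop where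
  mp : ∀ m, MeasurePreserving (act m) μ μ
  add : ∀ m m' x, act (m + m') x = act m (act m' x)

lemma SS_meas [MeasurableSpace X] {μ : Measure X} {act : M → X → X} (ha : Acts μ act) {t : ℕ} (w : ℕ → ℝ)
    (g : Fin t → M) (f : Fin t → X → ℝ) (hf : ∀ i, Measurable (f i)) (N : ℕ) : Measurable (SS w act g f N) := by
  unfold SS
  refine Finset.measurable_sum _ fun n _ => ?_
  refine Measurable.const_mul ?_ _
  refine Finset.measurable_prod _ fun i _ => ?_
  exact (hf i).comp (ha.mp _).measurable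

lemma SS_le {t : ℕ} {w : ℕ → ℝ} (hw1 : ∀ n, |w n| ≤ 1) (act : M → X → X) (g : Fin t → M) (f : Fin t → X → ℝ)
    (hf : ∀ i x, |f i x| ≤ 1) (N : ℕ) (x : X) : |SS w act g f N x| ≤ N := by
  unfold SS
  refine (abs_sum_le_sum_abs _ _).trans ?_
  calc ∑ m ∈ Icc 1 N, |w m * ∏ i, f i (act (m • g i) x)| ≤ ∑ _m ∈ Icc 1 N, (1 : ℝ) := by
        refine sum_le_sum fun m _ => ?_
        rw [abs_mul, abs_prod]
        exact mul_le_one₀ (hw1 m) (prod_nonneg fun _ _ => abs_nonneg _)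
          (prod_le_one (fun _ _ => abs_nonneg _) fun _ _ => hf _ _)
    _ = N := by simp

end

/-- **Multiple ergodic averages at the scales outside `E`.** -/
theorem erg {E : Set ℕ} {w : ℕ → ℝ} (hw : Orth E w) (hw1 : ∀ n, |w n| ≤ 1) (t : ℕ) (ε : ℝ) (hε : 0 < ε) :
    ∃ N₀ : ℕ, ∀ N : ℕ, N₀ ≤ N → N ∉ E → ∀ (M X : Type) [AddCommMonoid M] [MeasurableSpace X] (μ : Measure X)
      [IsProbabilityMeasure μ] (act : M → X → X), Acts μ act → ∀ (g : Fin t → M) (f : Fin t → X → ℝ),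
      (∀ i, Measurable (f i)) → (∀ i x, |f i x| ≤ 1) → ∫ x, SS w act g f N x ^ 2 ∂μ ≤ ε * (N : ℝ) ^ 2 := by
  obtain ⟨N₀, hN₀⟩ := pointwise hw hw1 t ε hε
  refine ⟨N₀ + 1, fun N hN hNE M X _ _ μ _ act ha g f hfm hf => ?_⟩
  have hN1 : (0 : ℝ) < N := by exact_mod_cast (by omega : 0 < N)
  have hm := SS_meas ha w g f hfm N
  have hint : ∀ p : Fin t → ℤ, Integrable (fun x => SS w act g f N (act (elt g p) x) ^ 2) μ := by
    intro p
    refine Integrable.of_bound ((hm.comp (ha.mp _).measurable).pow_const 2).aestronglyMeasurable ((N : ℝ) ^ 2)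
      (Eventually.of_forall fun x => ?_)
    rw [Real.norm_eq_abs, abs_of_nonneg (sq_nonneg _), ← sq_abs]
    exact pow_le_pow_left₀ (abs_nonneg _) (SS_le hw1 act g f hf N _) 2
  have h1 : ∀ p : Fin t → ℤ, ∫ x, SS w act g f N (act (elt g p) x) ^ 2 ∂μ = ∫ x, SS w act g f N x ^ 2 ∂μ := by
    intro p
    have h2 := integral_map (μ := μ) (ha.mp (elt g p)).measurable.aemeasurable
      (f := fun x => SS w act g f N x ^ 2) (hm.pow_const 2).aestronglyMeasurable
    rw [(ha.mp (elt g p)).map_eq] at h2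
    exact h2.symm
  have h3 : ∫ x, ∑ p ∈ fbox (fun _ : Fin t => 0) (fun _ => N), SS w act g f N (act (elt g p) x) ^ 2 ∂μ =
      (N : ℝ) ^ t * ∫ x, SS w act g f N x ^ 2 ∂μ := by
    rw [integral_finsetSum _ fun p _ => hint p, sum_congr rfl fun p _ => h1 p, sum_const, card_fbox, nsmul_eq_mul]
    simp
  have h4 : ∫ x, ∑ p ∈ fbox (fun _ : Fin t => 0) (fun _ => N), SS w act g f N (act (elt g p) x) ^ 2 ∂μ ≤
      ε * (N : ℝ) ^ (t + 2) := by
    have : ∫ _x, ε * (N : ℝ) ^ (t + 2) ∂μ = ε * (N : ℝ) ^ (t + 2) := by simp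
    rw [← this]
    exact integral_mono (integrable_finsetSum _ fun p _ => hint p) (integrable_const _)
      fun x => hN₀ N (by omega) hNE M X act ha.add g f hf x
  rw [h3] at h4
  have h5 : (N : ℝ) ^ t * ∫ x, SS w act g f N x ^ 2 ∂μ ≤ (N : ℝ) ^ t * (ε * (N : ℝ) ^ 2) := by
    refine h4.trans (le_of_eq ?_)
    ring
  exact le_of_mul_le_mul_left h5 (by positivity)

end Pool.Agent.H614.GV
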