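import Pool.Agent.H614.GV.Wt

/-!
Logarithmic multiple ergodic averages.
-/

set_option autoImplicit false

namespace Pool.Agent.H614.GV

open Finset Filter Topology MeasureTheory
open Pool.Agent.Y958.U (LZ LZ_iff LZ_union LZ_bdd LZ_sub LZ_empty ls ls_eq li li_mem li_not)

lemma abel_r (F : ℕ → ℝ) (X : ℕ) : ∑ n ∈ Icc 1 X, F n / n =
    ∑ N ∈ Icc 1 X, (∑ n ∈ Icc 1 N, F n) * (1 / ((N : ℝ) * (N + 1))) + (∑ n ∈ Icc 1 X, F n) / (X + 1) := by
  induction X with
  | zero => simp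
  | succ X ih =>
    rw [sum_Icc_succ_top (by omega), sum_Icc_succ_top (by omega), ih, sum_Icc_succ_top (by omega)]
    push_cast
    have h1 : (X : ℝ) + 1 ≠ 0 := by positivity
    have h2 : (X : ℝ) + 1 + 1 ≠ 0 := by positivity
    field_simp
    ring

section
variable {M X : Type} [AddCommMonoid M]

/-- the logarithmic sum -/
noncomputable def TT {t : ℕ} (w : ℕ → ℝ) (act : M → X → X) (g : Fin t → M) (f : Fin t → X → ℝ) (N : ℕ) (x : X) : ℝ :=
  ∑ n ∈ Icc 1 N, (w n * ∏ i, f i (act (n • g i) x)) / n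

lemma TT_meas [MeasurableSpace X] {μ : Measure X} {act : M → X → X} (ha : Acts μ act) {t : ℕ} (w : ℕ → ℝ)
    (g : Fin t → M) (f : Fin t → X → ℝ) (hf : ∀ i, Measurable (f i)) (N : ℕ) : Measurable (TT w act g f N) := by
  unfold TT
  refine Finset.measurable_sum _ fun n _ => ?_
  refine Measurable.div_const ?_ _
  refine Measurable.const_mul ?_ _
  refine Finset.measurable_prod _ fun i _ => ?_
  exact (hf i).comp (ha.mp _).measurable

/-- the pointwise inequality -/
lemma TT_sq {t : ℕ} {w : ℕ → ℝ} (hw1 : ∀ n, |w n| ≤ 1) (act : M → X → X) (g : Fin t → M) (f : Fin t → X → ℝ)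
    (hf : ∀ i x, |f i x| ≤ 1) (N : ℕ) (x : X) :
    TT w act g f N x ^ 2 ≤ 2 * ((1 + Real.log N) * ∑ n ∈ Icc 1 N, (1 / (n : ℝ)) * (SS w act g f n x / n) ^ 2) + 2 := by
  have h1 : TT w act g f N x = ∑ n ∈ Icc 1 N, SS w act g f n x * (1 / ((n : ℝ) * (n + 1))) + SS w act g f N x / (N + 1) := by
    unfold TT SS
    exact abel_r (fun n => w n * ∏ i, f i (act (n • g i) x)) N
  set A := ∑ n ∈ Icc 1 N, SS w act g f n x * (1 / ((n : ℝ) * (n + 1))) with hA
  set B := SS w act g f N x / (N + 1) with hB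
  have hB1 : |B| ≤ 1 := by
    rw [hB, abs_div, abs_of_pos (by positivity : (0 : ℝ) < N + 1), div_le_one (by positivity)]
    exact (SS_le hw1 act g f hf N x).trans (by linarith)
  have hB2 : B ^ 2 ≤ 1 := by
    rw [sq_le_one_iff_abs_le_one]
    exact hB1
  have hA2 : A ^ 2 ≤ (1 + Real.log N) * ∑ n ∈ Icc 1 N, (1 / (n : ℝ)) * (SS w act g f n x / n) ^ 2 := by
    have e1 : A ^ 2 ≤ (∑ n ∈ Icc 1 N, (1 / (n : ℝ))) * ∑ n ∈ Icc 1 N, (1 / (n : ℝ)) * (SS w act g f n x / (n + 1)) ^ 2 := by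
      rw [hA]
      apply sum_sq_le_sum_mul_sum_of_sq_le_mul
      · intro n _; positivity
      · intro n _; positivity
      · intro n hn
        have hn0 : (n : ℝ) ≠ 0 := by
          have := (mem_Icc.1 hn).1
          positivity
        apply le_of_eq
        field_simp
    have e2 := Pool.Agent.H614.CW.harm_le N
    have e3 : 0 ≤ ∑ n ∈ Icc 1 N, (1 / (n : ℝ)) * (SS w act g f n x / (n + 1)) ^ 2 :=
      sum_nonneg fun n _ => by positivity
    have e4 : ∑ n ∈ Icc 1 N, (1 / (n : ℝ)) * (SS w act g f n x / (n + 1)) ^ 2 ≤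
        ∑ n ∈ Icc 1 N, (1 / (n : ℝ)) * (SS w act g f n x / n) ^ 2 := by
      refine sum_le_sum fun n hn => ?_
      have hn0 : (0 : ℝ) < n := by exact_mod_cast (mem_Icc.1 hn).1
      apply mul_le_mul_of_nonneg_left _ (by positivity)
      rw [div_pow, div_pow]
      apply div_le_div_of_nonneg_left (sq_nonneg _) (by positivity)
      exact pow_le_pow_left₀ hn0.le (by linarith) 2
    have e5 : 0 ≤ 1 + Real.log N := by
      have := Real.log_natCast_nonneg N
      linarith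
    calc A ^ 2 ≤ _ := e1
      _ ≤ (1 + Real.log N) * ∑ n ∈ Icc 1 N, (1 / (n : ℝ)) * (SS w act g f n x / (n + 1)) ^ 2 :=
        mul_le_mul_of_nonneg_right e2 e3
      _ ≤ _ := mul_le_mul_of_nonneg_left e4 e5
  rw [h1]
  nlinarith [sq_nonneg (A - B)]

end

/-- **Logarithmic multiple ergodic averages.** -/
theorem erg_log {E : Set ℕ} (hE : LZ E) {w : ℕ → ℝ} (hw : Orth E w) (hw1 : ∀ n, |w n| ≤ 1) (t : ℕ) (η : ℝ)
    (hη : 0 < η) : ∃ X₀ : ℕ, ∀ N : ℕ, X₀ ≤ N → ∀ (M X : Type) [AddCommMonoid M] [MeasurableSpace X] (μ : Measure X)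
      [IsProbabilityMeasure μ] (act : M → X → X), Acts μ act → ∀ (g : Fin t → M) (f : Fin t → X → ℝ),
      (∀ i, Measurable (f i)) → (∀ i x, |f i x| ≤ 1) → ∫ x, TT w act g f N x ^ 2 ∂μ ≤ η * (Real.log N) ^ 2 := by
  classical
  obtain ⟨N₀, hN₀⟩ := erg hw hw1 t (η / 16) (by positivity)
  have hE1 : LZ (E ∪ {n | n < N₀}) := LZ_union hE (LZ_bdd _ N₀ fun n hn => hn)
  obtain ⟨X₁, hX₁⟩ := (LZ_iff _).1 hE1 (η / 16) (by positivity)
  have hlog : Tendsto (fun X : ℕ => Real.log X) atTop atTop :=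
    Real.tendsto_log_atTop.comp tendsto_natCast_atTop_atTop
  obtain ⟨X₂, hX₂⟩ := eventually_atTop.1 (hlog.eventually_ge_atTop (max 1 (8 / η)))
  refine ⟨X₁ + X₂, fun N hN M X _ _ μ _ act ha g f hfm hf => ?_⟩
  have hl := hX₂ N (by omega)
  have hl1 : 1 ≤ Real.log N := (le_max_left _ _).trans hl
  have hl2 : 8 / η ≤ Real.log N := (le_max_right _ _).trans hl
  have h1 := hX₁ N (by omega)
  have hSm := fun n => SS_meas ha w g f hfm n
  have hSn : ∀ n : ℕ, ∀ x, (SS w act g f n x / n) ^ 2 ≤ 1 := by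
    intro n x
    rw [sq_le_one_iff_abs_le_one, abs_div, Nat.abs_cast]
    rcases Nat.eq_zero_or_pos n with h | h
    · subst h; simp
    · have hn0 : (0 : ℝ) < n := by exact_mod_cast h
      rw [div_le_one hn0]
      exact SS_le hw1 act g f hf n x
  have hint : ∀ n : ℕ, Integrable (fun x => (SS w act g f n x / n) ^ 2) μ := by
    intro n
    refine Integrable.of_bound (((hSm n).div_const _).pow_const 2).aestronglyMeasurable 1
      (Eventually.of_forall fun x => ?_)
    rw [Real.norm_eq_abs, abs_of_nonneg (sq_nonneg _)]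
    exact hSn n x
  -- the integrals
  have h2 : ∀ n ∈ Icc 1 N, (1 / (n : ℝ)) * ∫ x, (SS w act g f n x / n) ^ 2 ∂μ ≤
      (η / 16) * (1 / n) + li (E ∪ {n | n < N₀}) n := by
    intro n hn
    have hn0 : (0 : ℝ) < n := by exact_mod_cast (mem_Icc.1 hn).1
    by_cases hm : n ∈ E ∪ {n | n < N₀}
    · rw [li_mem hm]
      have e1 : ∫ x, (SS w act g f n x / n) ^ 2 ∂μ ≤ 1 := by
        have : ∫ _x, (1 : ℝ) ∂μ = 1 := by simp
        rw [← this]
        exact integral_mono (hint n) (integrable_const _) fun x => hSn n x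
      have e2 : (1 / (n : ℝ)) * ∫ x, (SS w act g f n x / n) ^ 2 ∂μ ≤ (1 / n) * 1 :=
        mul_le_mul_of_nonneg_left e1 (by positivity)
      have e3 : 0 ≤ (η / 16) * (1 / (n : ℝ)) := by positivity
      linarith
    · rw [li_not hm, add_zero]
      have h5 : N₀ ≤ n := by
        by_contra hc
        exact hm (Or.inr (by simpa using hc))
      have h6 := hN₀ n h5 (fun hc => hm (Or.inl hc)) M X μ act ha g f hfm hf
      have e1 : ∫ x, (SS w act g f n x / n) ^ 2 ∂μ ≤ η / 16 := by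
        simp only [div_pow]
        rw [integral_div, div_le_iff₀ (by positivity)]
        exact h6
      calc (1 / (n : ℝ)) * ∫ x, (SS w act g f n x / n) ^ 2 ∂μ ≤ (1 / n) * (η / 16) :=
            mul_le_mul_of_nonneg_left e1 (by positivity)
        _ = (η / 16) * (1 / n) := by ring
  have h3 : ∑ n ∈ Icc 1 N, (1 / (n : ℝ)) * ∫ x, (SS w act g f n x / n) ^ 2 ∂μ ≤ (η / 16) * (3 * Real.log N) := by
    refine (sum_le_sum h2).trans ?_
    rw [sum_add_distrib, ← mul_sum, ← ls_eq]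
    have e1 := Pool.Agent.H614.CW.harm_le N
    have e2 : (η / 16) * ∑ n ∈ Icc 1 N, (1 : ℝ) / n ≤ (η / 16) * (2 * Real.log N) :=
      mul_le_mul_of_nonneg_left (by linarith) (by positivity)
    linarith
  have h4 : ∫ x, TT w act g f N x ^ 2 ∂μ ≤
      2 * ((1 + Real.log N) * ∑ n ∈ Icc 1 N, (1 / (n : ℝ)) * ∫ x, (SS w act g f n x / n) ^ 2 ∂μ) + 2 := by
    have e1 : ∫ x, (2 * ((1 + Real.log N) * ∑ n ∈ Icc 1 N, (1 / (n : ℝ)) * (SS w act g f n x / n) ^ 2) + 2) ∂μ =
        2 * ((1 + Real.log N) * ∑ n ∈ Icc 1 N, (1 / (n : ℝ)) * ∫ x, (SS w act g f n x / n) ^ 2 ∂μ) + 2 := by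
      have e3 : Integrable (fun x => ∑ n ∈ Icc 1 N, (1 / (n : ℝ)) * (SS w act g f n x / n) ^ 2) μ :=
        integrable_finsetSum _ fun n _ => (hint n).const_mul _
      rw [integral_add ((e3.const_mul _).const_mul _) (integrable_const _), integral_const_mul, integral_const_mul,
        integral_finsetSum _ fun n _ => (hint n).const_mul _]
      simp only [integral_const_mul, integral_const, probReal_univ, smul_eq_mul, one_mul]
    rw [← e1]
    apply integral_mono_of_nonneg (Eventually.of_forall fun x => sq_nonneg _)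
    · exact ((((integrable_finsetSum _ fun n _ => (hint n).const_mul _).const_mul _).const_mul _).add (integrable_const _))
    · exact Eventually.of_forall fun x => TT_sq hw1 act g f hf N x
  have h5 : (1 + Real.log N) * ∑ n ∈ Icc 1 N, (1 / (n : ℝ)) * ∫ x, (SS w act g f n x / n) ^ 2 ∂μ ≤
      (2 * Real.log N) * ((η / 16) * (3 * Real.log N)) := by
    apply mul_le_mul (by linarith) h3 _ (by linarith)
    exact sum_nonneg fun n _ => mul_nonneg (by positivity) (integral_nonneg fun x => sq_nonneg _)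
  have h6 : (2 : ℝ) ≤ η / 4 * (Real.log N) ^ 2 := by
    rw [div_le_iff₀ hη] at hl2
    nlinarith
  calc ∫ x, TT w act g f N x ^ 2 ∂μ ≤ 2 * ((2 * Real.log N) * ((η / 16) * (3 * Real.log N))) + 2 := by linarith
    _ = 3 / 4 * (η * (Real.log N) ^ 2) + 2 := by ring
    _ ≤ η * (Real.log N) ^ 2 := by linarith

end Pool.Agent.H614.GV
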