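import Pool.Agent.H614.GV.CS
import Pool.Graph.R_pool_sql_team_seeded_63374d34.Results.MP_a14ce1_nt.FixedShiftPatterns

/-!
The sums over the cubes as sums of products of values of the Liouville function at affine functions.
-/

set_option autoImplicit false

namespace Pool.Agent.H614.GV

open Finset
open Pool.Agent.Results.MP_a14ce1_nt.FixedShiftPatterns renaming box → fbox
open Pool.Agent.Results.MP_a14ce1_nt.FixedShiftPatterns (lam aff cls NotProp)

/-- the product of the integer vectors `φ` and `v` -/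
def dot {D : ℕ} (φ v : Fin D → ℤ) : ℤ := ∑ s, φ s * v s

/-- the coefficients of the forms on the cubes -/
def coef {k D t : ℕ} (φ : Fin k → Fin D → ℤ) (v : Fin t → Fin D → ℤ) (i : Fin k × (Fin t → Bool)) :
    Fin D ⊕ (Fin t × Bool) → ℤ
  | Sum.inl s => φ i.1 s
  | Sum.inr ab => if i.2 ab.1 = ab.2 then dot (φ i.1) (v ab.1) else 0

noncomputable def eI (k t : ℕ) : Fin k × (Fin t → Bool) ≃ Fin (Fintype.card (Fin k × (Fin t → Bool))) :=
  Fintype.equivFin _

noncomputable def eJ (D t : ℕ) : Fin D ⊕ (Fin t × Bool) ≃ Fin (Fintype.card (Fin D ⊕ (Fin t × Bool))) :=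
  Fintype.equivFin _

noncomputable def Phi {k D t : ℕ} (φ : Fin k → Fin D → ℤ) (v : Fin t → Fin D → ℤ) :
    Fin (Fintype.card (Fin k × (Fin t → Bool))) → Fin (Fintype.card (Fin D ⊕ (Fin t × Bool))) → ℤ :=
  fun i s => coef φ v ((eI k t).symm i) ((eJ D t).symm s)

noncomputable def bb {k : ℕ} (t : ℕ) (b : Fin k → ℤ) : Fin (Fintype.card (Fin k × (Fin t → Bool))) → ℤ :=
  fun i => b ((eI k t).symm i).1

noncomputable def uu {D : ℕ} (t : ℕ) (u : Fin D → ℤ) : Fin (Fintype.card (Fin D ⊕ (Fin t × Bool))) → ℤ :=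
  fun s => Sum.elim u (fun _ => -1) ((eJ D t).symm s)

noncomputable def BB {D : ℕ} (t : ℕ) (B : Fin D → ℕ) (H : ℕ) : Fin (Fintype.card (Fin D ⊕ (Fin t × Bool))) → ℕ :=
  fun s => Sum.elim B (fun _ => H) ((eJ D t).symm s)

/-- the product of the values -/
noncomputable def ff {k D : ℕ} (φ : Fin k → Fin D → ℤ) (b : Fin k → ℤ) (y : Fin D → ℤ) : ℝ :=
  ∏ j, lam (aff (φ j) (b j) y)

lemma lam_abs (m : ℤ) : |lam m| = 1 := by
  unfold lam
  rw [abs_pow, abs_neg, abs_one, one_pow]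

lemma ff_abs {k D : ℕ} (φ : Fin k → Fin D → ℤ) (b : Fin k → ℤ) (y : Fin D → ℤ) : |ff φ b y| ≤ 1 := by
  unfold ff
  rw [abs_prod]
  simp [lam_abs]

lemma dot_add {D : ℕ} (φ v w : Fin D → ℤ) : dot φ (v + w) = dot φ v + dot φ w := by
  unfold dot
  rw [← sum_add_distrib]
  refine sum_congr rfl fun s _ => ?_
  rw [Pi.add_apply]
  ring

lemma dot_smul {D : ℕ} (φ v : Fin D → ℤ) (c : ℤ) : dot φ (c • v) = c * dot φ v := by
  unfold dot
  rw [mul_sum]
  refine sum_congr rfl fun s _ => ?_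
  rw [Pi.smul_apply, smul_eq_mul]
  ring

lemma dot_sum {D : ℕ} {ι : Type} (S : Finset ι) (φ : Fin D → ℤ) (v : ι → Fin D → ℤ) :
    dot φ (∑ i ∈ S, v i) = ∑ i ∈ S, dot φ (v i) := by
  classical
  induction S using Finset.induction_on with
  | empty => simp [dot]
  | insert i S hi ih => rw [sum_insert hi, sum_insert hi, dot_add, ih]

/-- the values of the forms -/
lemma aff_Phi {k D t : ℕ} (φ : Fin k → Fin D → ℤ) (b : Fin k → ℤ) (v : Fin t → Fin D → ℤ) (j : Fin k)
    (ω : Fin t → Bool) (y : Fin D → ℤ) (h : Fin t → Bool → ℤ) :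
    aff (Phi φ v (eI k t (j, ω))) (bb t b (eI k t (j, ω)))
      (fun s => Sum.elim y (fun ab => h ab.1 ab.2) ((eJ D t).symm s)) =
      aff (φ j) (b j) (y + ∑ a, h a (ω a) • v a) := by
  unfold aff Phi bb
  simp only [Equiv.symm_apply_apply]
  congr 1
  rw [← (eJ D t).sum_comp, Fintype.sum_sum_type]
  simp only [Equiv.symm_apply_apply, Sum.elim_inl, Sum.elim_inr, coef]
  have h1 : ∑ s, φ j s * (y + ∑ a, h a (ω a) • v a) s = dot (φ j) (y + ∑ a, h a (ω a) • v a) := rfl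
  rw [h1, dot_add, dot_sum]
  congr 1
  rw [Fintype.sum_prod_type]
  refine sum_congr rfl fun a _ => ?_
  rw [dot_smul]
  simp only [ite_mul, zero_mul]
  rw [Finset.sum_ite_eq (univ : Finset Bool) (ω a) (fun β => dot (φ j) (v a) * h a β), if_pos (mem_univ _), mul_comm]

/-- the sums over the cubes -/
theorem XX_eq {k D t : ℕ} (φ : Fin k → Fin D → ℤ) (b : Fin k → ℤ) (v : Fin t → Fin D → ℤ) (u : Fin D → ℤ)
    (B : Fin D → ℕ) (H : ℕ) :
    XX (fbox u B) v H (ff φ b) =
      ∑ z ∈ fbox (uu t u) (BB t B H), ∏ i, lam (aff (Phi φ v i) (bb t b i) z) := by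
  unfold XX
  rw [← sum_product']
  refine sum_bij' (fun (hy : (Fin t → Bool → Fin H) × (Fin D → ℤ)) _ =>
      (fun s => Sum.elim hy.2 (fun ab => ((hy.1 ab.1 ab.2 : ℕ) : ℤ)) ((eJ D t).symm s)))
    (fun z hz => (fun a β => ⟨(z (eJ D t (Sum.inr (a, β)))).toNat, ?_⟩, fun s => z (eJ D t (Sum.inl s)))) ?_ ?_ ?_ ?_ ?_
  · unfold fbox at hz
    rw [Fintype.mem_piFinset] at hz
    have := hz (eJ D t (Sum.inr (a, β)))
    rw [mem_Ioc] at this
    unfold uu BB at this
    simp only [Equiv.symm_apply_apply, Sum.elim_inr] at this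
    omega
  · rintro ⟨h, y⟩ hy
    rw [mem_product] at hy
    have hy2 := hy.2
    unfold fbox at hy2 ⊢
    rw [Fintype.mem_piFinset] at hy2 ⊢
    intro s
    unfold uu BB
    rcases hs : (eJ D t).symm s with s' | ab
    · simpa using hy2 s'
    · simp only [Sum.elim_inr, mem_Ioc]
      have := (h ab.1 ab.2).2
      omega
  · intro z hz
    rw [mem_product]
    refine ⟨mem_univ _, ?_⟩
    unfold fbox at hz ⊢
    rw [Fintype.mem_piFinset] at hz ⊢
    intro s
    have := hz (eJ D t (Sum.inl s))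
    unfold uu BB at this
    simpa using this
  · rintro ⟨h, y⟩ hy
    ext
    · simp
    · simp
  · intro z hz
    unfold fbox at hz
    rw [Fintype.mem_piFinset] at hz
    funext s
    rcases hs : (eJ D t).symm s with s' | ab
    · simp only [Sum.elim_inl]
      rw [← hs, Equiv.apply_symm_apply]
    · simp only [Sum.elim_inr]
      have h1 := hz (eJ D t (Sum.inr (ab.1, ab.2)))
      rw [mem_Ioc] at h1
      unfold uu BB at h1
      simp only [Equiv.symm_apply_apply, Sum.elim_inr] at h1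
      rw [Int.toNat_of_nonneg (by omega)]
      have : (ab.1, ab.2) = ab := rfl
      rw [this, ← hs, Equiv.apply_symm_apply]
  · rintro ⟨h, y⟩ _
    simp only
    rw [← (eI k t).prod_comp, Fintype.prod_prod_type, prod_comm]
    refine prod_congr rfl fun ω _ => ?_
    unfold ff
    refine prod_congr rfl fun j _ => ?_
    rw [aff_Phi φ b v j ω y (fun a β => ((h a β : ℕ) : ℤ))]

lemma par_dot {D : ℕ} {φ ψ : Fin D → ℤ} (p : ∀ s s', φ s * ψ s' = φ s' * ψ s) (w : Fin D → ℤ) (s : Fin D) :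
    φ s * dot ψ w = dot φ w * ψ s := by
  unfold dot
  rw [mul_sum, sum_mul]
  refine sum_congr rfl fun s' _ => ?_
  have := p s s'
  calc φ s * (ψ s' * w s') = (φ s * ψ s') * w s' := by ring
    _ = (φ s' * ψ s) * w s' := by rw [this]
    _ = φ s' * w s' * ψ s := by ring

lemma par_dot2 {D : ℕ} {φ ψ : Fin D → ℤ} (p : ∀ s s', φ s * ψ s' = φ s' * ψ s) (w w' : Fin D → ℤ) :
    dot φ w * dot ψ w' = dot φ w' * dot ψ w := by
  have h1 : dot φ w * dot ψ w' = ∑ s, (φ s * dot ψ w') * w s := by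
    unfold dot
    rw [sum_mul]
    refine sum_congr rfl fun s _ => ?_
    ring
  rw [h1]
  simp only [par_dot p]
  unfold dot
  rw [mul_sum]
  refine sum_congr rfl fun s _ => ?_
  ring

/-- the classes of parallel forms -/
lemma mem_cls_Phi {k D t : ℕ} (φ : Fin k → Fin D → ℤ) (hφ : ∀ j, φ j ≠ 0) (v : Fin t → Fin D → ℤ) (j₀ : Fin k)
    (hv : ∀ a, dot (φ j₀) (v a) ≠ 0) (ω₀ : Fin t → Bool) (j : Fin k) (ω : Fin t → Bool) :
    eI k t (j, ω) ∈ cls (Phi φ v) (eI k t (j₀, ω₀)) ↔ j ∈ cls φ j₀ ∧ ω = ω₀ := by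
  unfold cls
  rw [mem_filter, mem_filter]
  constructor
  · rintro ⟨-, h⟩
    have h' : ∀ x x', coef φ v (j, ω) x * coef φ v (j₀, ω₀) x' = coef φ v (j, ω) x' * coef φ v (j₀, ω₀) x := by
      intro x x'
      have := h (eJ D t x) (eJ D t x')
      unfold Phi at this
      simpa only [Equiv.symm_apply_apply] using this
    refine ⟨⟨mem_univ _, fun s s' => h' (Sum.inl s) (Sum.inl s')⟩, ?_⟩
    funext a
    by_contra hne
    apply hφ j
    funext s
    have h2 := h' (Sum.inl s) (Sum.inr (a, ω₀ a))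
    simp only [coef, if_neg hne, if_true, zero_mul] at h2
    rcases mul_eq_zero.1 h2 with h3 | h3
    · exact h3
    · exact absurd h3 (hv a)
  · rintro ⟨⟨-, p⟩, rfl⟩
    refine ⟨mem_univ _, ?_⟩
    have h' : ∀ x x', coef φ v (j, ω) x * coef φ v (j₀, ω) x' = coef φ v (j, ω) x' * coef φ v (j₀, ω) x := by
      rintro (s | ⟨a, β⟩) (s' | ⟨a', β'⟩)
      · exact p s s'
      · simp only [coef]
        split_ifs
        · exact par_dot p _ _
        · ring
      · simp only [coef]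
        split_ifs
        · exact (par_dot p _ _).symm
        · ring
      · simp only [coef]
        split_ifs
        · exact par_dot2 p _ _
        · ring
        · ring
        · ring
    intro s s'
    unfold Phi
    simp only [Equiv.symm_apply_apply]
    exact h' _ _

lemma card_cls_Phi {k D t : ℕ} (φ : Fin k → Fin D → ℤ) (hφ : ∀ j, φ j ≠ 0) (v : Fin t → Fin D → ℤ) (j₀ : Fin k)
    (hv : ∀ a, dot (φ j₀) (v a) ≠ 0) (ω₀ : Fin t → Bool) :
    (cls (Phi φ v) (eI k t (j₀, ω₀))).card = (cls φ j₀).card := by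
  have h : cls (Phi φ v) (eI k t (j₀, ω₀)) = (cls φ j₀).image fun j => eI k t (j, ω₀) := by
    ext i
    rw [mem_image]
    constructor
    · intro hi
      obtain ⟨⟨j, ω⟩, rfl⟩ := (eI k t).surjective i
      rw [mem_cls_Phi φ hφ v j₀ hv] at hi
      obtain ⟨h1, rfl⟩ := hi
      exact ⟨j, h1, rfl⟩
    · rintro ⟨j, hj, rfl⟩
      rw [mem_cls_Phi φ hφ v j₀ hv]
      exact ⟨hj, rfl⟩
  rw [h, card_image_of_injective]
  intro j j' hjj
  have := (eI k t).injective hjj
  exact (Prod.mk.inj this).1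

/-- the condition on the forms and the directions -/
def GoodAt {k D : ℕ} (φ : Fin k → Fin D → ℤ) (b : Fin k → ℤ) (j₀ : Fin k) : Prop :=
  Odd (cls φ j₀).card ∨ ((cls φ j₀).card = 2 ∧ ∃ i ∈ cls φ j₀, NotProp φ b i j₀)

lemma good_Phi {k D t : ℕ} (φ : Fin k → Fin D → ℤ) (hφ : ∀ j, φ j ≠ 0) (b : Fin k → ℤ) (v : Fin t → Fin D → ℤ)
    (j₀ : Fin k) (hv : ∀ a, dot (φ j₀) (v a) ≠ 0) (hg : GoodAt φ b j₀) :
    Pool.Agent.Results.MP_a14ce1_nt.FixedShiftPatterns.Good (Phi φ v) (bb t b) := by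
  refine ⟨eI k t (j₀, fun _ => false), ?_⟩
  rw [card_cls_Phi φ hφ v j₀ hv]
  rcases hg with h | ⟨h1, i, hi, h2⟩
  · exact Or.inl h
  · refine Or.inr ⟨h1, eI k t (i, fun _ => false), (mem_cls_Phi φ hφ v j₀ hv _ _ _).2 ⟨hi, rfl⟩, ?_⟩
    unfold NotProp Phi bb
    simp only [Equiv.symm_apply_apply]
    rcases h2 with ⟨s, s', h3⟩ | ⟨s, h3⟩
    · left
      refine ⟨eJ D t (Sum.inl s), eJ D t (Sum.inl s'), ?_⟩
      simpa only [Equiv.symm_apply_apply, coef] using h3
    · right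
      refine ⟨eJ D t (Sum.inl s), ?_⟩
      simpa only [Equiv.symm_apply_apply, coef] using h3

lemma Phi_ne {k D t : ℕ} (φ : Fin k → Fin D → ℤ) (hφ : ∀ j, φ j ≠ 0) (v : Fin t → Fin D → ℤ) (i) :
    Phi φ v i ≠ 0 := by
  intro h
  obtain ⟨⟨j, ω⟩, rfl⟩ := (eI k t).surjective i
  apply hφ j
  funext s
  have := congrFun h (eJ D t (Sum.inl s))
  unfold Phi at this
  simpa only [Equiv.symm_apply_apply, coef, Pi.zero_apply] using this

end Pool.Agent.H614.GV
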