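import Pool.Agent.H614.GV.Scale

/-!
The generalised von Neumann theorem for the products of values of the Liouville function at affine functions.
-/

set_option autoImplicit false

namespace Pool.Agent.H614.GV

open Finset Filter Topology
open Pool.Agent.Results.MP_a14ce1_nt.FixedShiftPatterns renaming box → fbox
open Pool.Agent.Results.MP_a14ce1_nt.FixedShiftPatterns (lam aff cls NotProp)
open Pool.Agent.Y958.U (LZ LZ_iff LZ_union LZ_bdd LZ_sub LZ_empty)

lemma prod_BB {D : ℕ} (t : ℕ) (B : Fin D → ℕ) (H : ℕ) :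
    ∏ s, (BB t B H s : ℝ) = (∏ s, (B s : ℝ)) * (H : ℝ) ^ (2 * t) := by
  unfold BB
  rw [← (eJ D t).prod_comp, Fintype.prod_sum_type]
  simp only [Equiv.symm_apply_apply, Sum.elim_inl, Sum.elim_inr, prod_const, card_univ, Fintype.card_prod,
    Fintype.card_fin, Fintype.card_bool]
  rw [mul_comm t 2]

/-- the case of at least one function -/
lemma main_succ {k D t : ℕ} (φ : Fin k → Fin D → ℤ) (hφ : ∀ j, φ j ≠ 0) (b : Fin k → ℤ) (v : Fin (t + 1) → Fin D → ℤ)
    (j₀ : Fin k) (hg : GoodAt φ b j₀) (hv : ∀ a, dot (φ j₀) (v a) ≠ 0) (R : ℕ) (ε : ℝ) (hε : 0 < ε) (hε1 : ε ≤ 1) :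
    LZ (BadF φ b v R ε) := by
  -- the parameters
  set P : ℝ := ((R : ℝ) + 1) ^ D with hP
  have hP1 : 1 ≤ P := one_le_pow₀ (by have : (0 : ℝ) ≤ R := Nat.cast_nonneg R; linarith)
  have hP0 : 0 < P := by linarith
  set η₁ : ℝ := ε / P with hη₁
  have hη₁0 : 0 < η₁ := by positivity
  have hη₁1 : η₁ ≤ 1 := by
    rw [hη₁, div_le_one hP0]
    linarith
  set ε₂ : ℝ := η₁ ^ (2 ^ (t + 1)) / 2 with hε₂
  have hε₂0 : 0 < ε₂ := by positivity
  set δ : ℝ := min 1 (ε₂ / (CC (t + 1) + 1)) with hδ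
  have hCC := CC_nonneg (t + 1)
  have hδ0 : 0 < δ := lt_min one_pos (by positivity)
  have hδ1 : δ ≤ 1 := min_le_left _ _
  have hδ2 : CC (t + 1) * δ ≤ ε₂ := by
    have h1 : δ ≤ ε₂ / (CC (t + 1) + 1) := min_le_right _ _
    rw [le_div_iff₀ (by positivity)] at h1
    nlinarith
  set W : ℝ := (∑ a, ∑ s, |(v a s : ℝ)|) + 1 with hW
  have hW1 : 1 ≤ W := by
    have : 0 ≤ ∑ a, ∑ s, |(v a s : ℝ)| := sum_nonneg fun a _ => sum_nonneg fun s _ => abs_nonneg _
    linarith
  set η₂ : ℝ := δ * η₁ / (4 * W) with hη₂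
  have hη₂0 : 0 < η₂ := by positivity
  have hη₂1 : η₂ ≤ 1 := by
    rw [hη₂, div_le_one (by positivity)]
    nlinarith
  set R' : ℕ := ⌈1 / η₂⌉₊ + ⌈1 / η₁⌉₊ + R + 2 with hR'
  have hR'2 : 1 / η₂ ≤ R' := by
    refine (Nat.le_ceil _).trans ?_
    exact_mod_cast (by omega : ⌈1 / η₂⌉₊ ≤ R')
  have hR'1 : 1 / η₁ ≤ R' := by
    refine (Nat.le_ceil _).trans ?_
    exact_mod_cast (by omega : ⌈1 / η₁⌉₊ ≤ R')
  have hR'R : R ≤ R' := by omega
  have hR'b : 2 ≤ R' := by omega
  -- the exceptional scales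
  have hE := LZ_BadS (Phi φ v) (bb (t + 1) b) (Phi_ne φ hφ v) (good_Phi φ hφ b v j₀ hv hg) R' ε₂ hε₂0
  obtain ⟨M₀, hM₀⟩ := exists_nat_ge (1 / η₂)
  refine LZ_sub ?_ (LZ_union hE (LZ_bdd {M | M < M₀ + 1} (M₀ + 1) fun n hn => hn))
  intro M hM
  by_contra hMn
  rw [Set.mem_union, not_or] at hMn
  obtain ⟨hM1, hM2⟩ := hMn
  have hMM : M₀ + 1 ≤ M := by
    by_contra hc
    exact hM2 (by rw [Set.mem_ofPred_eq]; omega)
  have hMr : 1 / η₂ ≤ M := hM₀.trans (by exact_mod_cast (by omega : M₀ ≤ M))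
  have hMpos : (1 : ℝ) ≤ M := by exact_mod_cast (by omega : 1 ≤ M)
  have hηM : 1 ≤ η₂ * M := by
    rw [div_le_iff₀ hη₂0] at hMr
    linarith
  obtain ⟨u, B, F, huB, hF1, hF, hbig⟩ := hM
  have hfF : ∀ y, |ff φ b y * ∏ i, F i y| ≤ 1 := by
    intro y
    rw [abs_mul, abs_prod]
    exact mul_le_one₀ (ff_abs _ _ _) (prod_nonneg fun _ _ => abs_nonneg _)
      (prod_le_one (fun _ _ => abs_nonneg _) fun _ _ => hF1 _ _)
  have htriv : |∑ y ∈ fbox u B, ff φ b y * ∏ i, F i y| ≤ (fbox u B).card := by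
    refine (abs_sum_le_sum_abs _ _).trans ((sum_le_sum fun y _ => hfF y).trans ?_)
    simp
  have hBR : ∀ s, (B s : ℝ) ≤ (R + 1) * M := by
    intro s
    have : (B s : ℝ) ≤ R * M := by exact_mod_cast (huB s).2
    nlinarith
  have hcard : ((fbox u B).card : ℝ) ≤ P * (M : ℝ) ^ D := by
    rw [card_fbox, hP, ← mul_pow]
    push_cast
    calc ∏ s, (B s : ℝ) ≤ ∏ _s : Fin D, ((R : ℝ) + 1) * M := prod_le_prod (fun _ _ => Nat.cast_nonneg _) fun s _ => hBR s
      _ = (((R : ℝ) + 1) * M) ^ D := by rw [prod_const, card_univ, Fintype.card_fin]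
  by_cases hsmall : ∃ s, (B s : ℝ) < η₁ * M
  · obtain ⟨s, hs⟩ := hsmall
    have h1 : ((fbox u B).card : ℝ) ≤ ε * (M : ℝ) ^ D := by
      rw [card_fbox]
      push_cast
      rw [← mul_prod_erase univ _ (mem_univ s)]
      calc (B s : ℝ) * ∏ s' ∈ univ.erase s, (B s' : ℝ) ≤ (η₁ * M) * ∏ _s' ∈ univ.erase s, (((R : ℝ) + 1) * M) :=
            mul_le_mul hs.le (prod_le_prod (fun _ _ => Nat.cast_nonneg _) fun s' _ => hBR s')
              (prod_nonneg fun _ _ => Nat.cast_nonneg _) (by positivity)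
        _ ≤ (η₁ * (((R : ℝ) + 1) * M)) * ∏ _s' ∈ univ.erase s, (((R : ℝ) + 1) * M) := by
            apply mul_le_mul_of_nonneg_right _ (prod_nonneg fun _ _ => by positivity)
            apply mul_le_mul_of_nonneg_left _ hη₁0.le
            have : (0 : ℝ) ≤ R := Nat.cast_nonneg R
            nlinarith
        _ = η₁ * ∏ _s' : Fin D, (((R : ℝ) + 1) * M) := by
            rw [← mul_prod_erase univ _ (mem_univ s)]
            ring
        _ = ε * (M : ℝ) ^ D := by
            rw [prod_const, card_univ, Fintype.card_fin, mul_pow, ← hP, hη₁]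
            field_simp
    linarith
  · push Not at hsmall
    have hB0 : ∀ s, 0 < B s := by
      intro s
      have h1 : 0 < η₁ * M := by positivity
      have := h1.trans_le (hsmall s)
      exact_mod_cast this
    -- the number of shifts
    set H : ℕ := ⌊η₂ * M⌋₊ + 1 with hH
    have hH1 : η₂ * M ≤ H := by
      rw [hH]
      push_cast
      exact (Nat.lt_floor_add_one _).le
    have hH2 : (H : ℝ) ≤ 2 * (η₂ * M) := by
      have := Nat.floor_le (by positivity : 0 ≤ η₂ * M)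
      rw [hH]
      push_cast
      linarith
    have hinv : ∀ i, Inv (fbox u B) (v i) H δ := by
      intro i
      apply inv_box u B hB0
      have e1 : ∀ s, (H : ℝ) * |(v i s : ℝ)| / B s ≤ (2 * η₂ / η₁) * |(v i s : ℝ)| := by
        intro s
        have hBs : (0 : ℝ) < B s := by exact_mod_cast hB0 s
        rw [div_le_iff₀ hBs]
        calc (H : ℝ) * |(v i s : ℝ)| ≤ 2 * (η₂ * M) * |(v i s : ℝ)| := mul_le_mul_of_nonneg_right hH2 (abs_nonneg _)
          _ = (2 * η₂ / η₁) * |(v i s : ℝ)| * (η₁ * M) := by field_simp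
          _ ≤ (2 * η₂ / η₁) * |(v i s : ℝ)| * B s := mul_le_mul_of_nonneg_left (hsmall s) (by positivity)
      have e2 : ∑ s, |(v i s : ℝ)| ≤ W := by
        have : ∑ s, |(v i s : ℝ)| ≤ ∑ a, ∑ s, |(v a s : ℝ)| :=
          single_le_sum (f := fun a => ∑ s, |(v a s : ℝ)|) (fun a _ => sum_nonneg fun s _ => abs_nonneg _) (mem_univ i)
        linarith
      calc 2 * ∑ s, (H : ℝ) * |(v i s : ℝ)| / B s ≤ 2 * ∑ s, (2 * η₂ / η₁) * |(v i s : ℝ)| :=
            mul_le_mul_of_nonneg_left (sum_le_sum fun s _ => e1 s) (by norm_num)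
        _ = 2 * (2 * η₂ / η₁) * ∑ s, |(v i s : ℝ)| := by rw [← mul_sum]; ring
        _ ≤ 2 * (2 * η₂ / η₁) * W := mul_le_mul_of_nonneg_left e2 (by positivity)
        _ = δ := by
          rw [hη₂]
          field_simp
          ring
    have hne : (fbox u B).Nonempty := by
      rw [← card_pos, card_fbox]
      exact prod_pos fun s _ => hB0 s
    have hcs := cs (fbox u B) hne H (by omega) δ hδ0.le hδ1 (t + 1) v hinv (ff φ b) (ff_abs φ b) F hF1 hF
    -- the sum over the cubes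
    have hX : XX (fbox u B) v H (ff φ b) ≤ ε₂ * ((H : ℝ) ^ (2 * (t + 1)) * (fbox u B).card) := by
      by_contra hc
      push Not at hc
      apply hM1
      refine ⟨uu (t + 1) u, BB (t + 1) B H, ?_, ?_⟩
      · have hHM : H ≤ R' * M := by
          have e1 : (H : ℝ) ≤ R' * M := by
            have h2 : (2 : ℝ) ≤ R' := by exact_mod_cast hR'b
            calc (H : ℝ) ≤ 2 * (η₂ * M) := hH2
              _ ≤ 2 * (1 * M) := by
                apply mul_le_mul_of_nonneg_left _ (by norm_num)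
                exact mul_le_mul_of_nonneg_right hη₂1 (by linarith)
              _ = 2 * M := by ring
              _ ≤ R' * M := mul_le_mul_of_nonneg_right h2 (by linarith)
          exact_mod_cast e1
        have hMH : M ≤ R' * H := by
          have e1 : (M : ℝ) ≤ R' * H := by
            calc (M : ℝ) = 1 / η₂ * (η₂ * M) := by field_simp
              _ ≤ R' * H := mul_le_mul hR'2 hH1 (by positivity) (Nat.cast_nonneg _)
          exact_mod_cast e1
        intro s
        unfold uu BB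
        rcases (eJ D (t + 1)).symm s with s' | ab
        · simp only [Sum.elim_inl]
          refine ⟨?_, ?_, ?_⟩
          · refine (huB s').1.trans ?_
            have : (R : ℤ) ≤ R' := by exact_mod_cast hR'R
            exact mul_le_mul_of_nonneg_right this (by positivity)
          · have e1 : (M : ℝ) ≤ R' * B s' := by
              calc (M : ℝ) = 1 / η₁ * (η₁ * M) := by field_simp
                _ ≤ R' * B s' := mul_le_mul hR'1 (hsmall s') (by positivity) (Nat.cast_nonneg _)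
            exact_mod_cast e1
          · exact (huB s').2.trans (Nat.mul_le_mul_right _ hR'R)
        · simp only [Sum.elim_inr]
          refine ⟨?_, hMH, hHM⟩
          rw [abs_neg, abs_one]
          have : 1 ≤ R' * M := Nat.mul_pos (by omega) (by omega)
          exact_mod_cast this
      · rw [prod_BB, ← XX_eq]
        rw [card_fbox] at hc
        push_cast at hc
        refine lt_of_lt_of_le ?_ (le_abs_self _)
        calc ε₂ * ((∏ s, (B s : ℝ)) * (H : ℝ) ^ (2 * (t + 1))) = ε₂ * ((H : ℝ) ^ (2 * (t + 1)) * ∏ s, (B s : ℝ)) := by ring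
          _ < XX (fbox u B) v H (ff φ b) := hc
    have hBc : (0 : ℝ) < (fbox u B).card := by exact_mod_cast hne.card_pos
    have hHpos : (0 : ℝ) < H := by exact_mod_cast (by omega : 0 < H)
    have h2 : ((∑ y ∈ fbox u B, ff φ b y * ∏ i, F i y) / (fbox u B).card) ^ (2 ^ (t + 1)) ≤ η₁ ^ (2 ^ (t + 1)) := by
      refine hcs.trans ?_
      have e1 : XX (fbox u B) v H (ff φ b) / ((H : ℝ) ^ (2 * (t + 1)) * (fbox u B).card) ≤ ε₂ := by
        rw [div_le_iff₀ (by positivity)]
        exact hX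
      have e2 : η₁ ^ (2 ^ (t + 1)) = ε₂ + ε₂ := by
        rw [hε₂]
        ring
      rw [e2]
      exact add_le_add hδ2 e1
    have heven : Even (2 ^ (t + 1)) := by
      rw [Nat.even_pow]
      exact ⟨even_two, by omega⟩
    rw [← heven.pow_abs] at h2
    have h3 := (pow_le_pow_iff_left₀ (abs_nonneg _) hη₁0.le (by positivity)).1 h2
    rw [abs_div, Nat.abs_cast, div_le_iff₀ hBc] at h3
    have h4 : η₁ * ((fbox u B).card : ℝ) ≤ ε * (M : ℝ) ^ D := by
      calc η₁ * ((fbox u B).card : ℝ) ≤ η₁ * (P * (M : ℝ) ^ D) := mul_le_mul_of_nonneg_left hcard hη₁0.le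
        _ = ε * (M : ℝ) ^ D := by rw [hη₁]; field_simp
    linarith

/-- **The generalised von Neumann theorem**: the exceptional scales have logarithmic density zero. -/
theorem main {k D t : ℕ} (φ : Fin k → Fin D → ℤ) (hφ : ∀ j, φ j ≠ 0) (b : Fin k → ℤ) (v : Fin t → Fin D → ℤ)
    (j₀ : Fin k) (hg : GoodAt φ b j₀) (hv : ∀ a, dot (φ j₀) (v a) ≠ 0) (R : ℕ) (ε : ℝ) (hε : 0 < ε) :
    LZ (BadF φ b v R ε) := by
  have hd : dot (φ j₀) (φ j₀) ≠ 0 := by
    intro h
    apply hφ j₀
    unfold dot at h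
    rw [sum_eq_zero_iff_of_nonneg fun s _ => mul_self_nonneg _] at h
    funext s
    exact mul_self_eq_zero.1 (h s (mem_univ _))
  have h1 := main_succ φ hφ b (Fin.cons (φ j₀) v : Fin (t + 1) → Fin D → ℤ) j₀ hg (by
    intro a
    refine Fin.cases ?_ (fun i => ?_) a
    · exact hd
    · exact hv i) R (min ε 1) (lt_min hε one_pos) (min_le_right _ _)
  refine LZ_sub ?_ h1
  rintro M ⟨u, B, F, h1, h2, h3, h4⟩
  refine ⟨u, B, (Fin.cons (fun _ => 1) F : Fin (t + 1) → (Fin D → ℤ) → ℝ), h1, ?_, ?_, ?_⟩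
  · intro i
    refine Fin.cases ?_ (fun i => ?_) i
    · intro y
      simp
    · intro y
      simpa using h2 i y
  · intro i
    refine Fin.cases ?_ (fun i => ?_) i
    · intro y
      simp
    · intro y
      simpa using h3 i y
  · have e : ∀ y, ff φ b y * ∏ i, (Fin.cons (fun _ => 1) F : Fin (t + 1) → (Fin D → ℤ) → ℝ) i y =
        ff φ b y * ∏ i, F i y := by
      intro y
      rw [Fin.prod_univ_succ]
      simp
    simp only [e]
    refine lt_of_le_of_lt ?_ h4
    exact mul_le_mul_of_nonneg_right (min_le_left _ _) (by positivity)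

end Pool.Agent.H614.GV
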