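import Pool.Agent.H614.GV.Main

/-!
One set of exceptional scales, and the sign patterns.
-/

set_option autoImplicit false

namespace Pool.Agent.H614.GV

open Finset Filter Topology
open Pool.Agent.Results.MP_a14ce1_nt.FixedShiftPatterns renaming box → fbox
open Pool.Agent.Results.MP_a14ce1_nt.FixedShiftPatterns (lam aff cls NotProp)
open Pool.Agent.Y958.U (LZ LZ_iff LZ_union LZ_bdd LZ_sub LZ_empty)

/-- the data of the theorem -/
abbrev Data := Σ D : ℕ, Σ k : ℕ, Σ t : ℕ,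
  (Fin k → Fin D → ℤ) × (Fin k → ℤ) × (Fin t → Fin D → ℤ) × Fin k × ℕ × ℕ

open Classical in
/-- the exceptional scales of the data -/
noncomputable def excD (x : Data) : Set ℕ :=
  if (∀ j, x.2.2.2.1 j ≠ 0) ∧ GoodAt x.2.2.2.1 x.2.2.2.2.1 x.2.2.2.2.2.2.1 ∧
    ∀ a, dot (x.2.2.2.1 x.2.2.2.2.2.2.1) (x.2.2.2.2.2.1 a) ≠ 0 then
    BadF x.2.2.2.1 x.2.2.2.2.1 x.2.2.2.2.2.1 x.2.2.2.2.2.2.2.1 (1 / ((x.2.2.2.2.2.2.2.2 : ℝ) + 1)) else ∅

lemma LZ_excD (x : Data) : LZ (excD x) := by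
  unfold excD
  split_ifs with h
  · exact main _ h.1 _ _ _ h.2.1 h.2.2 _ _ (by positivity)
  · exact LZ_empty

/-- **One set of exceptional scales.** -/
theorem single : ∃ E : Set ℕ, LZ E ∧ ∀ (D k t : ℕ) (φ : Fin k → Fin D → ℤ) (b : Fin k → ℤ) (v : Fin t → Fin D → ℤ)
    (j₀ : Fin k), (∀ j, φ j ≠ 0) → GoodAt φ b j₀ → (∀ a, dot (φ j₀) (v a) ≠ 0) → ∀ (R : ℕ) (ε : ℝ), 0 < ε →
    ∃ N₀ : ℕ, ∀ N : ℕ, N₀ ≤ N → N ∉ E → ∀ (u : Fin D → ℤ) (B : Fin D → ℕ) (F : Fin t → (Fin D → ℤ) → ℝ),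
      (∀ s, |u s| ≤ (R : ℤ) * N ∧ B s ≤ R * N) → (∀ i y, |F i y| ≤ 1) → (∀ i y, F i (y + v i) = F i y) →
      |∑ y ∈ fbox u B, ff φ b y * ∏ i, F i y| ≤ ε * (N : ℝ) ^ D := by
  have : Nonempty Data := ⟨⟨0, 1, 0, fun _ _ => 0, fun _ => 0, fun _ _ => 0, 0, 0, 0⟩⟩
  obtain ⟨E, hE, h⟩ := Pool.Agent.Y958.U.diag' excD LZ_excD
  refine ⟨E, hE, fun D k t φ b v j₀ hφ hg hv R ε hε => ?_⟩
  obtain ⟨q, hq⟩ := exists_nat_one_div_lt hε
  obtain ⟨N₀, hN₀⟩ := h ⟨D, k, t, φ, b, v, j₀, R, q⟩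
  refine ⟨N₀, fun N hN hNE u B F h1 h2 h3 => ?_⟩
  by_contra hc
  push Not at hc
  apply hNE
  apply hN₀ N _ hN
  unfold excD
  rw [if_pos ⟨hφ, hg, hv⟩]
  refine ⟨u, B, F, h1, h2, h3, ?_⟩
  refine lt_of_le_of_lt ?_ hc
  exact mul_le_mul_of_nonneg_right hq.le (by positivity)

/-- the sign pattern `s` at `y` -/
def Pt {k D : ℕ} (φ : Fin k → Fin D → ℤ) (b : Fin k → ℤ) (s : Fin k → ℝ) (y : Fin D → ℤ) : Prop :=
  ∀ j, lam (aff (φ j) (b j) y) = s j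

open Classical in
/-- its indicator function -/
noncomputable def iP {k D : ℕ} (φ : Fin k → Fin D → ℤ) (b : Fin k → ℤ) (s : Fin k → ℝ) (y : Fin D → ℤ) : ℝ :=
  if Pt φ b s y then 1 else 0

lemma lam_one (m : ℤ) : lam m = 1 ∨ lam m = -1 := by
  unfold lam
  exact neg_one_pow_eq_or _ _

lemma iP_eq {k D : ℕ} (φ : Fin k → Fin D → ℤ) (b : Fin k → ℤ) (s : Fin k → ℝ) (hs : ∀ j, s j = 1 ∨ s j = -1)
    (y : Fin D → ℤ) : iP φ b s y - 1 / 2 ^ k = ∑ E ∈ (univ : Finset (Fin k)).powerset.erase ∅,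
      (1 / 2 ^ k * ∏ j ∈ E, s j) * ∏ j ∈ E, lam (aff (φ j) (b j) y) := by
  have h1 : iP φ b s y = (1 / 2 ^ k) * ∑ E ∈ (univ : Finset (Fin k)).powerset, (∏ j ∈ E, s j) *
      ∏ j ∈ E, lam (aff (φ j) (b j) y) := by
    have e1 : ∑ E ∈ (univ : Finset (Fin k)).powerset, (∏ j ∈ E, s j) * ∏ j ∈ E, lam (aff (φ j) (b j) y) =
        ∏ j : Fin k, (1 + s j * lam (aff (φ j) (b j) y)) := by
      rw [Finset.prod_one_add]
      refine sum_congr rfl fun E _ => ?_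
      rw [prod_mul_distrib]
    have e2 : (1 / 2 ^ k : ℝ) * ∏ j : Fin k, (1 + s j * lam (aff (φ j) (b j) y)) =
        ∏ j : Fin k, ((1 + s j * lam (aff (φ j) (b j) y)) / 2) := by
      rw [prod_div_distrib]
      simp only [prod_const, card_univ, Fintype.card_fin]
      ring
    rw [e1, e2]
    unfold iP
    split_ifs with h
    · symm
      apply prod_eq_one
      intro j _
      rw [h j]
      rcases hs j with h3 | h3 <;> rw [h3] <;> norm_num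
    · unfold Pt at h
      push Not at h
      obtain ⟨j, hj⟩ := h
      symm
      apply prod_eq_zero (mem_univ j)
      rcases hs j with h3 | h3 <;> rcases lam_one (aff (φ j) (b j) y) with h4 | h4 <;> rw [h3, h4] at hj ⊢ <;>
        first | exact absurd rfl hj | norm_num
  rw [h1, ← add_sum_erase _ _ (empty_mem_powerset (univ : Finset (Fin k)))]
  simp only [prod_empty, mul_one]
  rw [mul_add, mul_one, add_sub_cancel_left, mul_sum]
  refine sum_congr rfl fun E _ => ?_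
  ring

/-- the subfamilies -/
lemma ff_sub {k D : ℕ} (φ : Fin k → Fin D → ℤ) (b : Fin k → ℤ) (E : Finset (Fin k)) (y : Fin D → ℤ) :
    ∏ j ∈ E, lam (aff (φ j) (b j) y) =
      ff (fun j : Fin E.card => φ (E.orderIsoOfFin rfl j)) (fun j => b (E.orderIsoOfFin rfl j)) y := by
  unfold ff
  rw [← prod_coe_sort E]
  exact (Fintype.prod_equiv (E.orderIsoOfFin rfl).toEquiv _ _ fun j => rfl).symm

lemma good_sub {k D : ℕ} (φ : Fin k → Fin D → ℤ) (b : Fin k → ℤ) (hnp : ∀ i j, i ≠ j → NotProp φ b i j)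
    (h3 : ∀ j, (cls φ j).card ≤ 3) (E : Finset (Fin k)) (j₀ : Fin E.card) :
    GoodAt (fun j : Fin E.card => φ (E.orderIsoOfFin rfl j)) (fun j => b (E.orderIsoOfFin rfl j)) j₀ := by
  set e : Fin E.card → Fin k := fun j => (E.orderIsoOfFin rfl j : Fin k) with he
  have hinj : Function.Injective e := fun i j h => (E.orderIsoOfFin rfl).injective (Subtype.ext h)
  have h1 : (cls (fun j => φ (e j)) j₀).card ≤ 3 := by
    refine le_trans ?_ (h3 (e j₀))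
    apply card_le_card_of_injOn e
    · intro i hi
      rw [mem_coe] at hi ⊢
      unfold cls at hi ⊢
      rw [mem_filter] at hi ⊢
      exact ⟨mem_univ _, hi.2⟩
    · exact hinj.injOn
  have h0 : j₀ ∈ cls (fun j => φ (e j)) j₀ := by
    unfold cls
    rw [mem_filter]
    exact ⟨mem_univ _, fun s s' => mul_comm _ _⟩
  have h2 : 1 ≤ (cls (fun j => φ (e j)) j₀).card := card_pos.2 ⟨_, h0⟩
  unfold GoodAt
  rcases Nat.lt_or_ge (cls (fun j => φ (e j)) j₀).card 3 with h | h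
  · rcases Nat.lt_or_ge (cls (fun j => φ (e j)) j₀).card 2 with h' | h'
    · left
      have : (cls (fun j => φ (e j)) j₀).card = 1 := by omega
      rw [this]
      exact odd_one
    · right
      have h2' : (cls (fun j => φ (e j)) j₀).card = 2 := by omega
      refine ⟨h2', ?_⟩
      obtain ⟨i, hi, hne⟩ := exists_mem_ne (by omega : 1 < (cls (fun j => φ (e j)) j₀).card) j₀
      refine ⟨i, hi, ?_⟩
      exact hnp (e i) (e j₀) (fun h => hne (hinj h))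
  · left
    have : (cls (fun j => φ (e j)) j₀).card = 3 := le_antisymm h1 h
    rw [this]
    decide

/-- **Sign patterns on arbitrary cylinder functions.** -/
theorem patterns {E : Set ℕ} (hE : ∀ (D k t : ℕ) (φ : Fin k → Fin D → ℤ) (b : Fin k → ℤ) (v : Fin t → Fin D → ℤ)
    (j₀ : Fin k), (∀ j, φ j ≠ 0) → GoodAt φ b j₀ → (∀ a, dot (φ j₀) (v a) ≠ 0) → ∀ (R : ℕ) (ε : ℝ), 0 < ε →
    ∃ N₀ : ℕ, ∀ N : ℕ, N₀ ≤ N → N ∉ E → ∀ (u : Fin D → ℤ) (B : Fin D → ℕ) (F : Fin t → (Fin D → ℤ) → ℝ),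
      (∀ s, |u s| ≤ (R : ℤ) * N ∧ B s ≤ R * N) → (∀ i y, |F i y| ≤ 1) → (∀ i y, F i (y + v i) = F i y) →
      |∑ y ∈ fbox u B, ff φ b y * ∏ i, F i y| ≤ ε * (N : ℝ) ^ D)
    (D k t : ℕ) (φ : Fin k → Fin D → ℤ) (b : Fin k → ℤ) (v : Fin t → Fin D → ℤ) (hφ : ∀ j, φ j ≠ 0)
    (hnp : ∀ i j, i ≠ j → NotProp φ b i j) (h3 : ∀ j, (cls φ j).card ≤ 3) (hv : ∀ j a, dot (φ j) (v a) ≠ 0)
    (R : ℕ) (ε : ℝ) (hε : 0 < ε) :
    ∃ N₀ : ℕ, ∀ N : ℕ, N₀ ≤ N → N ∉ E → ∀ (u : Fin D → ℤ) (B : Fin D → ℕ) (F : Fin t → (Fin D → ℤ) → ℝ)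
      (s : Fin k → ℝ), (∀ s, |u s| ≤ (R : ℤ) * N ∧ B s ≤ R * N) → (∀ i y, |F i y| ≤ 1) →
      (∀ i y, F i (y + v i) = F i y) → (∀ j, s j = 1 ∨ s j = -1) →
      |∑ y ∈ fbox u B, (iP φ b s y - 1 / 2 ^ k) * ∏ i, F i y| ≤ ε * (N : ℝ) ^ D := by
  have hsub : ∀ T ∈ (univ : Finset (Fin k)).powerset.erase ∅, ∃ N₀ : ℕ, ∀ N : ℕ, N₀ ≤ N → N ∉ E →
      ∀ (u : Fin D → ℤ) (B : Fin D → ℕ) (F : Fin t → (Fin D → ℤ) → ℝ),
      (∀ s, |u s| ≤ (R : ℤ) * N ∧ B s ≤ R * N) → (∀ i y, |F i y| ≤ 1) → (∀ i y, F i (y + v i) = F i y) →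
      |∑ y ∈ fbox u B, (∏ j ∈ T, lam (aff (φ j) (b j) y)) * ∏ i, F i y| ≤ ε * (N : ℝ) ^ D := by
    intro T hT
    have hT1 : T ≠ ∅ := ne_of_mem_erase hT
    have hT2 : 0 < T.card := Finset.card_pos.2 (nonempty_iff_ne_empty.2 hT1)
    simp only [ff_sub]
    exact hE D T.card t _ _ v ⟨0, hT2⟩ (fun j => hφ _) (good_sub φ b hnp h3 T _) (fun a => hv _ a) R ε hε
  choose! N₀ hN₀ using hsub
  refine ⟨∑ T ∈ (univ : Finset (Fin k)).powerset.erase ∅, N₀ T, fun N hN hNE u B F s h1 h2 h4 hs => ?_⟩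
  have e1 : ∑ y ∈ fbox u B, (iP φ b s y - 1 / 2 ^ k) * ∏ i, F i y =
      ∑ T ∈ (univ : Finset (Fin k)).powerset.erase ∅, (1 / 2 ^ k * ∏ j ∈ T, s j) *
        ∑ y ∈ fbox u B, (∏ j ∈ T, lam (aff (φ j) (b j) y)) * ∏ i, F i y := by
    simp only [mul_sum]
    rw [sum_comm]
    refine sum_congr rfl fun y _ => ?_
    rw [iP_eq φ b s hs, sum_mul]
    refine sum_congr rfl fun T _ => ?_
    ring
  rw [e1]
  refine (abs_sum_le_sum_abs _ _).trans ?_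
  have h5 : ∀ T ∈ (univ : Finset (Fin k)).powerset.erase ∅, |(1 / 2 ^ k * ∏ j ∈ T, s j) *
      ∑ y ∈ fbox u B, (∏ j ∈ T, lam (aff (φ j) (b j) y)) * ∏ i, F i y| ≤ (1 / 2 ^ k) * (ε * (N : ℝ) ^ D) := by
    intro T hT
    rw [abs_mul, abs_mul, abs_prod]
    have q1 : ∏ j ∈ T, |s j| = 1 := by
      apply prod_eq_one
      intro j _
      rcases hs j with h | h <;> rw [h] <;> norm_num
    rw [q1, mul_one, abs_of_pos (by positivity : (0 : ℝ) < 1 / 2 ^ k)]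
    apply mul_le_mul_of_nonneg_left _ (by positivity)
    refine hN₀ T hT N ?_ hNE u B F h1 h2 h4
    exact (single_le_sum (fun _ _ => Nat.zero_le _) hT).trans hN
  refine (sum_le_sum h5).trans ?_
  rw [sum_const, nsmul_eq_mul]
  have h6 : (((univ : Finset (Fin k)).powerset.erase ∅).card : ℝ) ≤ 2 ^ k := by
    have : ((univ : Finset (Fin k)).powerset.erase ∅).card ≤ 2 ^ k := by
      refine (card_le_card (erase_subset _ _)).trans ?_
      rw [card_powerset, card_univ, Fintype.card_fin]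
    exact_mod_cast this
  calc (((univ : Finset (Fin k)).powerset.erase ∅).card : ℝ) * ((1 / 2 ^ k) * (ε * (N : ℝ) ^ D))
      ≤ 2 ^ k * ((1 / 2 ^ k) * (ε * (N : ℝ) ^ D)) := mul_le_mul_of_nonneg_right h6 (by positivity)
    _ = ε * (N : ℝ) ^ D := by
      field_simp

end Pool.Agent.H614.GV
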