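import Pool.Agent.H614.GV.Erg2
import Pool.Graph.R_pool_sql_team_seeded_843ab51a.V11270.CZ.Meas

/-!
Multiple recurrence along sets with orthogonal indicator functions.
-/

set_option autoImplicit false

namespace Pool.Agent.H614.GV

open Finset Filter Topology MeasureTheory
open Pool.Agent.Y958.U (LZ LZ_iff LZ_union LZ_bdd LZ_sub LZ_empty ls ls_eq li li_mem li_not)
open Pool.Agent.V11270.CZ (IPStar meas_ipstar)

/-- multiples -/
lemma ip_low {r : ℕ} {G : Set ℕ} (hG : IPStar r G) : 1 ≤ r ∧ ∀ m : ℕ, 1 ≤ m → ∃ j : ℕ, 1 ≤ j ∧ j ≤ r ∧ j * m ∈ G := by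
  refine ⟨?_, fun m hm => ?_⟩
  · obtain ⟨I, ⟨i, _⟩, _⟩ := hG (fun _ => 1) (fun _ => le_rfl)
    exact Fin.pos i
  · obtain ⟨I, hI, h⟩ := hG (fun _ => m) (fun _ => hm)
    refine ⟨I.card, hI.card_pos, ?_, ?_⟩
    · exact (card_le_univ I).trans (by rw [Fintype.card_fin])
    · rw [sum_const, smul_eq_mul] at h
      exact h

open Classical in
/-- the logarithmic sum over a set which meets all the sets of multiples -/
lemma log_low {r : ℕ} {G : Set ℕ} (hG : IPStar r G) (X : ℕ) :
    (1 / (r : ℝ) ^ 2) * (Real.log X - Real.log r) ≤ ∑ n ∈ Icc 1 X, if n ∈ G then (1 : ℝ) / n else 0 := by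
  obtain ⟨hr, hj⟩ := ip_low hG
  have hr0 : (0 : ℝ) < r := by exact_mod_cast hr
  choose! j hj1 hj2 hj3 using hj
  rcases Nat.eq_zero_or_pos X with rfl | hX
  · simp only [Nat.cast_zero, Real.log_zero, zero_sub]
    have : 0 ≤ Real.log r := Real.log_natCast_nonneg r
    have h1 : (1 / (r : ℝ) ^ 2) * (-Real.log r) ≤ 0 :=
      mul_nonpos_of_nonneg_of_nonpos (by positivity) (by linarith)
    simpa using h1
  have hX0 : (0 : ℝ) < X := by exact_mod_cast hX
  set Y := X / r with hY
  -- the lower bound for the multiples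
  have h1 : Real.log X - Real.log r ≤ ∑ m ∈ Icc 1 Y, (1 : ℝ) / m := by
    have e1 := log_add_one_le_harmonic Y
    rw [harmonic_eq_sum_Icc] at e1
    push_cast at e1
    simp only [one_div]
    refine le_trans ?_ e1
    rw [← Real.log_div hX0.ne' hr0.ne']
    apply Real.log_le_log (by positivity)
    rw [div_le_iff₀ hr0]
    have := (Nat.lt_mul_div_succ X hr).le
    have e2 : (X : ℝ) ≤ r * ((Y : ℝ) + 1) := by
      rw [hY]
      exact_mod_cast this
    linarith
  have h2 : ∑ m ∈ Icc 1 Y, (1 : ℝ) / (j m * m : ℕ) ≤ r * ∑ n ∈ Icc 1 X, if n ∈ G then (1 : ℝ) / n else 0 := by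
    have hmaps : ∀ m ∈ Icc 1 Y, j m * m ∈ (Icc 1 X).filter (fun n => n ∈ G) := by
      intro m hm
      rw [mem_Icc] at hm
      rw [mem_filter, mem_Icc]
      refine ⟨⟨Nat.mul_pos (hj1 m hm.1) (by omega), ?_⟩, hj3 m hm.1⟩
      calc j m * m ≤ r * Y := Nat.mul_le_mul (hj2 m hm.1) hm.2
        _ ≤ X := Nat.mul_div_le X r
    rw [← sum_fiberwise_of_maps_to hmaps, ← sum_filter, mul_sum]
    refine sum_le_sum fun n hn => ?_
    have e1 : ∀ m ∈ (Icc 1 Y).filter (fun m => j m * m = n), (1 : ℝ) / (j m * m : ℕ) = 1 / n := by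
      intro m hm
      rw [(mem_filter.1 hm).2]
    rw [sum_congr rfl e1, sum_const, nsmul_eq_mul]
    apply mul_le_mul_of_nonneg_right _ (by positivity)
    have e2 : (Icc 1 Y).filter (fun m => j m * m = n) ⊆ (Icc 1 r).image (fun i => n / i) := by
      intro m hm
      rw [mem_filter, mem_Icc] at hm
      rw [mem_image]
      refine ⟨j m, ?_, ?_⟩
      · rw [mem_Icc]
        exact ⟨hj1 m hm.1.1, hj2 m hm.1.1⟩
      · rw [← hm.2, Nat.mul_div_cancel_left _ (hj1 m hm.1.1)]
    have e3 := (card_le_card e2).trans card_image_le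
    rw [Nat.card_Icc, Nat.add_sub_cancel] at e3
    exact_mod_cast e3
  have h3 : (1 / (r : ℝ)) * ∑ m ∈ Icc 1 Y, (1 : ℝ) / m ≤ ∑ m ∈ Icc 1 Y, (1 : ℝ) / (j m * m : ℕ) := by
    rw [mul_sum]
    refine sum_le_sum fun m hm => ?_
    rw [mem_Icc] at hm
    have hm0 : (0 : ℝ) < m := by exact_mod_cast hm.1
    have hj0 : (0 : ℝ) < j m := by exact_mod_cast hj1 m hm.1
    push_cast
    rw [one_div_mul_one_div]
    apply one_div_le_one_div_of_le (by positivity)
    apply mul_le_mul_of_nonneg_right _ hm0.le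
    exact_mod_cast hj2 m hm.1
  have h4 : (1 / (r : ℝ)) * (Real.log X - Real.log r) ≤ (1 / (r : ℝ)) * ∑ m ∈ Icc 1 Y, (1 : ℝ) / m :=
    mul_le_mul_of_nonneg_left h1 (by positivity)
  have h5 : (1 / (r : ℝ)) * (Real.log X - Real.log r) ≤ r * ∑ n ∈ Icc 1 X, if n ∈ G then (1 : ℝ) / n else 0 := by
    linarith
  calc (1 / (r : ℝ) ^ 2) * (Real.log X - Real.log r) = (1 / r) * ((1 / (r : ℝ)) * (Real.log X - Real.log r)) := by
        field_simp
    _ ≤ (1 / r) * (r * ∑ n ∈ Icc 1 X, if n ∈ G then (1 : ℝ) / n else 0) :=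
        mul_le_mul_of_nonneg_left h5 (by positivity)
    _ = ∑ n ∈ Icc 1 X, if n ∈ G then (1 : ℝ) / n else 0 := by
        field_simp

open Classical in
/-- the indicator function -/
noncomputable def in1 (S : Set ℕ) (n : ℕ) : ℝ := if n ∈ S then 1 else 0

section
variable {M X : Type} [AddCommMonoid M] [MeasurableSpace X]

/-- the measure of the points which return to `A` -/
noncomputable def ret {l : ℕ} (μ : Measure X) (act : M → X → X) (g : Fin (l + 1) → M) (A : Set X) (n : ℕ) : ℝ :=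
  μ.real {x | ∀ i, act (n • g i) x ∈ A}

/-- the conclusion on recurrence -/
def Recur (S : Set ℕ) : Prop :=
  ∀ (l : ℕ) (δ : ℝ), 0 < δ → ∃ (κ : ℝ) (X₀ : ℕ), 0 < κ ∧ ∀ N : ℕ, X₀ ≤ N → ∀ (M X : Type) [AddCommMonoid M]
    [MeasurableSpace X] (μ : Measure X) [IsProbabilityMeasure μ] (act : M → X → X), Acts μ act →
    ∀ A : Set X, MeasurableSet A → δ ≤ μ.real A → ∀ g : Fin (l + 1) → M,
      κ * Real.log N ≤ ∑ n ∈ Icc 1 N, in1 S n * ret μ act g A n / n

end

/-- **Multiple recurrence.** -/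
theorem recur {E : Set ℕ} (hE : LZ E) (S : Set ℕ) (c : ℝ) (hc : 0 < c) (hc1 : c ≤ 1)
    (hS : Orth E fun n => in1 S n - c) : Recur S := by
  classical
  intro l δ hδ
  obtain ⟨r, η, hη, hip⟩ := meas_ipstar l δ hδ
  -- a trivial system shows that `r ≥ 1`; the bound below does not use it
  set κ₀ : ℝ := η / (2 * ((r : ℝ) ^ 2 + 1)) with hκ₀
  have hκ₀0 : 0 < κ₀ := by positivity
  have hw1 : ∀ n, |in1 S n - c| ≤ 1 := by
    intro n
    unfold in1
    split_ifs <;> rw [abs_le] <;> constructor <;> linarith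
  obtain ⟨X₁, hX₁⟩ := erg_log hE hS hw1 (l + 1) ((c * κ₀ / 2) ^ 2) (by positivity)
  have hlog : Tendsto (fun X : ℕ => Real.log X) atTop atTop :=
    Real.tendsto_log_atTop.comp tendsto_natCast_atTop_atTop
  obtain ⟨X₂, hX₂⟩ := eventually_atTop.1 (hlog.eventually_ge_atTop (max 1 (2 * Real.log r)))
  refine ⟨c * κ₀ / 2, X₁ + X₂, by positivity, fun N hN M X _ _ μ _ act ha A hA hμA g => ?_⟩
  have hl := hX₂ N (by omega)
  have hl1 : 1 ≤ Real.log N := (le_max_left _ _).trans hl
  have hl2 : 2 * Real.log r ≤ Real.log N := (le_max_right _ _).trans hl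
  set G : Set ℕ := {m : ℕ | η ≤ μ.real {x | ∀ t, act (m • g t) x ∈ A}} with hG
  have hG1 : IPStar r G := hip M X μ act ha.mp ha.add A hA hμA g
  have hr := (ip_low hG1).1
  have hr0 : (1 : ℝ) ≤ r := by exact_mod_cast hr
  have hret0 : ∀ n, 0 ≤ ret μ act g A n := fun n => measureReal_nonneg
  -- the unweighted sum
  have h1 : κ₀ * Real.log N ≤ ∑ n ∈ Icc 1 N, ret μ act g A n / n := by
    have e1 := log_low hG1 N
    have e2 : η * (∑ n ∈ Icc 1 N, if n ∈ G then (1 : ℝ) / n else 0) ≤ ∑ n ∈ Icc 1 N, ret μ act g A n / n := by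
      rw [mul_sum]
      refine sum_le_sum fun n _ => ?_
      split_ifs with h
      · rw [mul_one_div]
        exact div_le_div_of_nonneg_right h (Nat.cast_nonneg _)
      · rw [mul_zero]
        exact div_nonneg (hret0 n) (Nat.cast_nonneg _)
    have e3 : (1 / (2 * ((r : ℝ) ^ 2 + 1))) * Real.log N ≤ (1 / (r : ℝ) ^ 2) * (Real.log N - Real.log r) := by
      have q1 : (1 / 2) * Real.log N ≤ Real.log N - Real.log r := by linarith
      calc (1 / (2 * ((r : ℝ) ^ 2 + 1))) * Real.log N = (1 / ((r : ℝ) ^ 2 + 1)) * ((1 / 2) * Real.log N) := by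
            field_simp
        _ ≤ (1 / (r : ℝ) ^ 2) * ((1 / 2) * Real.log N) := by
            apply mul_le_mul_of_nonneg_right _ (by positivity)
            exact one_div_le_one_div_of_le (by positivity) (by linarith)
        _ ≤ _ := mul_le_mul_of_nonneg_left q1 (by positivity)
    calc κ₀ * Real.log N = η * ((1 / (2 * ((r : ℝ) ^ 2 + 1))) * Real.log N) := by rw [hκ₀]; ring
      _ ≤ η * ∑ n ∈ Icc 1 N, (if n ∈ G then (1 : ℝ) / n else 0) := mul_le_mul_of_nonneg_left (e3.trans e1) hη.le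
      _ ≤ _ := e2
  -- the weighted sum
  set f : Fin (l + 1) → X → ℝ := fun _ => Set.indicator A fun _ => 1 with hf
  have hfm : ∀ i, Measurable (f i) := fun i => measurable_const.indicator hA
  have hf1 : ∀ i x, |f i x| ≤ 1 := by
    intro i x
    rw [hf]
    simp only
    by_cases h : x ∈ A
    · rw [Set.indicator_of_mem h]; simp
    · rw [Set.indicator_of_notMem h]; simp
  have h2 := hX₁ N (by omega) M X μ act ha g f hfm hf1
  set w : ℕ → ℝ := fun n => in1 S n - c with hw
  have hTm := TT_meas ha w g f hfm N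
  have hprod : ∀ (n : ℕ) (x : X), ∏ i, f i (act (n • g i) x) = Set.indicator {x | ∀ i, act (n • g i) x ∈ A} (fun _ => (1 : ℝ)) x := by
    intro n x
    by_cases h : ∀ i, act (n • g i) x ∈ A
    · rw [Set.indicator_of_mem (show x ∈ {x | ∀ i, act (n • g i) x ∈ A} from h)]
      apply prod_eq_one
      intro i _
      rw [hf]
      simp only
      rw [Set.indicator_of_mem (h i)]
    · rw [Set.indicator_of_notMem (show x ∉ {x | ∀ i, act (n • g i) x ∈ A} from h)]
      push Not at h
      obtain ⟨i, hi⟩ := h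
      apply prod_eq_zero (mem_univ i)
      rw [hf]
      simp only
      rw [Set.indicator_of_notMem hi]
  have hmeas : ∀ n : ℕ, MeasurableSet {x | ∀ i, act (n • g i) x ∈ A} := by
    intro n
    have : {x | ∀ i, act (n • g i) x ∈ A} = ⋂ i, act (n • g i) ⁻¹' A := by
      ext x; simp
    rw [this]
    exact MeasurableSet.iInter fun i => (ha.mp _).measurable hA
  have hint1 : ∀ n : ℕ, Integrable (fun x => (w n * ∏ i, f i (act (n • g i) x)) / n) μ := by
    intro n
    simp only [hprod]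
    exact (((integrable_const (1 : ℝ)).indicator (hmeas n)).const_mul _).div_const _
  have h3 : ∫ x, TT w act g f N x ∂μ = ∑ n ∈ Icc 1 N, w n * ret μ act g A n / n := by
    unfold TT
    rw [integral_finsetSum _ fun n _ => hint1 n]
    refine sum_congr rfl fun n _ => ?_
    rw [integral_div, integral_const_mul]
    simp only [hprod]
    rw [integral_indicator (hmeas n), setIntegral_const, smul_eq_mul, mul_one]
    rfl
  have hTb : ∃ K : ℝ, ∀ x, |TT w act g f N x| ≤ K := by
    refine ⟨∑ n ∈ Icc 1 N, (1 : ℝ), fun x => ?_⟩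
    unfold TT
    refine (abs_sum_le_sum_abs _ _).trans (sum_le_sum fun n hn => ?_)
    have hn0 : (1 : ℝ) ≤ n := by exact_mod_cast (mem_Icc.1 hn).1
    rw [abs_div, Nat.abs_cast, div_le_one (by linarith)]
    refine le_trans ?_ hn0
    rw [abs_mul, abs_prod]
    exact mul_le_one₀ (hw1 n) (prod_nonneg fun _ _ => abs_nonneg _)
      (prod_le_one (fun _ _ => abs_nonneg _) fun i _ => hf1 i _)
  obtain ⟨K, hK⟩ := hTb
  have hTi : Integrable (TT w act g f N) μ :=
    Integrable.of_bound hTm.aestronglyMeasurable K (Eventually.of_forall fun x => by rw [Real.norm_eq_abs]; exact hK x)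
  have hTi2 : Integrable (fun x => TT w act g f N x ^ 2) μ :=
    Integrable.of_bound (hTm.pow_const 2).aestronglyMeasurable (K ^ 2) (Eventually.of_forall fun x => by
      rw [Real.norm_eq_abs, abs_of_nonneg (sq_nonneg _), ← sq_abs]
      exact pow_le_pow_left₀ (abs_nonneg _) (hK x) 2)
  set m := ∫ x, TT w act g f N x ∂μ with hm
  have h4 : m ^ 2 ≤ ∫ x, TT w act g f N x ^ 2 ∂μ := by
    have e1 : 0 ≤ ∫ x, (TT w act g f N x - m) ^ 2 ∂μ := integral_nonneg fun x => sq_nonneg _
    have e2 : ∫ x, (TT w act g f N x - m) ^ 2 ∂μ = ∫ x, TT w act g f N x ^ 2 ∂μ - m ^ 2 := by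
      have e3 : ∀ x, (TT w act g f N x - m) ^ 2 = TT w act g f N x ^ 2 - 2 * m * TT w act g f N x + m ^ 2 := by
        intro x; ring
      simp only [e3]
      have i1 : Integrable (fun x => 2 * m * TT w act g f N x) μ := hTi.const_mul _
      have i2 : Integrable (fun x => TT w act g f N x ^ 2 - 2 * m * TT w act g f N x) μ := hTi2.sub i1
      rw [integral_add i2 (integrable_const _), integral_sub hTi2 i1, integral_const_mul, ← hm, integral_const,
        probReal_univ, smul_eq_mul]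
      ring
    linarith
  have h5 : m ^ 2 ≤ (c * κ₀ / 2 * Real.log N) ^ 2 := by
    refine h4.trans (h2.trans (le_of_eq ?_))
    ring
  have h6 : |m| ≤ c * κ₀ / 2 * Real.log N := abs_le_of_sq_le_sq h5 (by positivity)
  have h7 : ∑ n ∈ Icc 1 N, in1 S n * ret μ act g A n / n = m + c * ∑ n ∈ Icc 1 N, ret μ act g A n / n := by
    rw [h3, mul_sum, ← sum_add_distrib]
    refine sum_congr rfl fun n _ => ?_
    rw [hw]
    ring
  rw [h7]
  have h8 := neg_abs_le m
  have h9 := mul_le_mul_of_nonneg_left h1 hc.le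
  linarith

end Pool.Agent.H614.GV
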