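import Pool.Agent.H614.GV.Forms
import Pool.Agent.H614.CW.Few

/-!
The generalised von Neumann theorem for the products of values of the Liouville function at affine functions, at
almost all scales.
-/

set_option autoImplicit false

namespace Pool.Agent.H614.GV

open Finset Filter Topology
open Pool.Agent.Results.MP_a14ce1_nt.FixedShiftPatterns renaming box → fbox
open Pool.Agent.Results.MP_a14ce1_nt.FixedShiftPatterns (lam aff cls NotProp)
open Pool.Agent.Y958.U (LZ LZ_iff LZ_union LZ_bdd LZ_sub LZ_empty)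

/-- the scales with a box of this scale in which the correlation is large -/
def BadS {k n : ℕ} (Φ : Fin k → Fin n → ℤ) (β : Fin k → ℤ) (R : ℕ) (ε : ℝ) : Set ℕ :=
  {M | ∃ (u : Fin n → ℤ) (B : Fin n → ℕ), (∀ s, |u s| ≤ (R : ℤ) * M ∧ M ≤ R * B s ∧ B s ≤ R * M) ∧
    ε * ∏ s, (B s : ℝ) < |∑ z ∈ fbox u B, ∏ i, lam (aff (Φ i) (β i) z)|}

lemma LZ_BadS {k n : ℕ} (Φ : Fin k → Fin n → ℤ) (β : Fin k → ℤ) (hΦ : ∀ i, Φ i ≠ 0)
    (hg : Pool.Agent.Results.MP_a14ce1_nt.FixedShiftPatterns.Good Φ β) (R : ℕ) (ε : ℝ) (hε : 0 < ε) :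
    LZ (BadS Φ β R ε) := by
  classical
  obtain ⟨C, hC⟩ := (Pool.Agent.Results.MP_a14ce1_nt.FixedShiftPatterns.result k n Φ β hΦ).1 hg (2 * R) ε hε
  apply Pool.Agent.H614.CW.LZ_few _ C
  intro J
  obtain ⟨N₀, hN₀⟩ := hC J
  refine ⟨N₀ + 2 ^ J, fun N hN => ?_⟩
  refine le_trans ?_ (hN₀ N (le_trans (Nat.le_add_right _ _) hN))
  apply sum_le_sum_of_subset_of_nonneg
  · intro i hi
    rw [mem_filter] at hi
    obtain ⟨hiJ, u, B, h1, h2⟩ := hi
    unfold Pool.Agent.Results.MP_a14ce1_nt.FixedShiftPatterns.excCorr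
    rw [mem_filter]
    refine ⟨hiJ, u, B, ?_, h2⟩
    intro s
    have hJ : 2 ^ i ≤ N := by
      have : 2 ^ i ≤ 2 ^ J := Nat.pow_le_pow_right (by norm_num) (mem_Icc.1 hiJ).2
      exact this.trans (le_trans (Nat.le_add_left _ _) hN)
    have hp : 0 < 2 ^ i := by positivity
    have q1 : 1 ≤ N / 2 ^ i := by rw [Nat.le_div_iff_mul_le hp]; omega
    have q2 := Nat.lt_mul_div_succ N hp
    have q3 := Nat.mul_div_le N (2 ^ i)
    obtain ⟨r1, r2, r3⟩ := h1 s
    refine ⟨?_, ?_, ?_⟩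
    · have hpz : (0 : ℤ) ≤ 2 ^ i := by positivity
      have e1 : (2 : ℤ) ^ i * |u s| ≤ 2 ^ i * ((R : ℤ) * ((N / 2 ^ i : ℕ) : ℤ)) := mul_le_mul_of_nonneg_left r1 hpz
      have e2 : (2 : ℤ) ^ i * ((R : ℤ) * ((N / 2 ^ i : ℕ) : ℤ)) ≤ R * N := by
        have : (2 ^ i * (N / 2 ^ i)) * R ≤ N * R := Nat.mul_le_mul_right R q3
        have h3 : ((2 ^ i * (N / 2 ^ i) * R : ℕ) : ℤ) ≤ ((N * R : ℕ) : ℤ) := by exact_mod_cast this
        push_cast at h3 ⊢
        linarith
      have e3 : (0 : ℤ) ≤ R * N := by positivity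
      push_cast
      linarith
    · have e1 : 2 ^ i * (N / 2 ^ i + 1) ≤ 2 ^ i * (2 * (N / 2 ^ i)) := Nat.mul_le_mul_left _ (by omega)
      have e2 : 2 ^ i * (2 * (N / 2 ^ i)) ≤ 2 ^ i * (2 * (R * B s)) :=
        Nat.mul_le_mul_left _ (Nat.mul_le_mul_left _ r2)
      have e3 : 2 ^ i * (2 * (R * B s)) = 2 * R * 2 ^ i * B s := by ring
      have e4 : N ≤ 2 * R * 2 ^ i * B s := by omega
      exact_mod_cast e4
    · have e1 : 2 ^ i * B s ≤ 2 ^ i * (R * (N / 2 ^ i)) := Nat.mul_le_mul_left _ r3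
      have e2 : R * (2 ^ i * (N / 2 ^ i)) ≤ R * N := Nat.mul_le_mul_left _ q3
      have e3 : 2 ^ i * (R * (N / 2 ^ i)) = R * (2 ^ i * (N / 2 ^ i)) := by ring
      have e4 : 2 ^ i * B s ≤ 2 * R * N := by
        have : R * N ≤ 2 * R * N := by nlinarith
        omega
      exact_mod_cast e4
  · intro i _ _
    positivity

/-- one interval -/
lemma edge (u w : ℤ) (B : ℕ) : ((Ioc u (u + B)).filter fun x => x - w ∉ Ioc u (u + (B : ℤ))).card ≤ w.natAbs := by
  rcases le_total 0 w with h | h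
  · have h1 : ((Ioc u (u + B)).filter fun x => x - w ∉ Ioc u (u + (B : ℤ))) ⊆ Ioc u (u + w) := by
      intro x hx
      rw [mem_filter, mem_Ioc, mem_Ioc] at hx
      rw [mem_Ioc]
      omega
    refine (card_le_card h1).trans ?_
    rw [Int.card_Ioc]
    omega
  · have h1 : ((Ioc u (u + B)).filter fun x => x - w ∉ Ioc u (u + (B : ℤ))) ⊆ Ioc (u + B + w) (u + B) := by
      intro x hx
      rw [mem_filter, mem_Ioc, mem_Ioc] at hx
      rw [mem_Ioc]
      omega
    refine (card_le_card h1).trans ?_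
    rw [Int.card_Ioc]
    omega

lemma card_fbox {D : ℕ} (u : Fin D → ℤ) (B : Fin D → ℕ) : (fbox u B).card = ∏ s, B s := by
  unfold fbox
  rw [Fintype.card_piFinset]
  refine prod_congr rfl fun s _ => ?_
  rw [Int.card_Ioc]
  omega

/-- the boundary of a box -/
lemma shift_box {D : ℕ} (u : Fin D → ℤ) (B : Fin D → ℕ) (hB : ∀ s, 0 < B s) (w : Fin D → ℤ) :
    (((fbox u B).filter fun y => y - w ∉ fbox u B).card : ℝ) ≤ (∑ s, |(w s : ℝ)| / B s) * (fbox u B).card := by
  classical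
  have h1 : ((fbox u B).filter fun y => y - w ∉ fbox u B) ⊆ (univ : Finset (Fin D)).biUnion fun s =>
      Fintype.piFinset (Function.update (fun s => Ioc (u s) (u s + (B s : ℤ))) s
        ((Ioc (u s) (u s + (B s : ℤ))).filter fun x => x - w s ∉ Ioc (u s) (u s + (B s : ℤ)))) := by
    intro y hy
    rw [mem_filter] at hy
    obtain ⟨h1, h2⟩ := hy
    unfold fbox at h1 h2
    rw [Fintype.mem_piFinset] at h1 h2
    push Not at h2
    obtain ⟨s, hs⟩ := h2
    rw [mem_biUnion]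
    refine ⟨s, mem_univ _, ?_⟩
    rw [Fintype.mem_piFinset]
    intro s'
    by_cases h : s' = s
    · subst h
      rw [Function.update_self, mem_filter]
      exact ⟨h1 _, hs⟩
    · rw [Function.update_of_ne h]
      exact h1 s'
  have h2 : ∀ s : Fin D, ((Fintype.piFinset (Function.update (fun s => Ioc (u s) (u s + (B s : ℤ))) s
      ((Ioc (u s) (u s + (B s : ℤ))).filter fun x => x - w s ∉ Ioc (u s) (u s + (B s : ℤ))))).card : ℝ) ≤
        |(w s : ℝ)| / B s * (fbox u B).card := by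
    intro s
    have hBs : (0 : ℝ) < B s := by exact_mod_cast hB s
    rw [Fintype.card_piFinset, card_fbox]
    have e1 : ∏ s', (Function.update (fun s => Ioc (u s) (u s + (B s : ℤ))) s
        ((Ioc (u s) (u s + (B s : ℤ))).filter fun x => x - w s ∉ Ioc (u s) (u s + (B s : ℤ))) s').card =
        ((Ioc (u s) (u s + (B s : ℤ))).filter fun x => x - w s ∉ Ioc (u s) (u s + (B s : ℤ))).card *
          ∏ s' ∈ univ.erase s, B s' := by
      rw [← mul_prod_erase univ _ (mem_univ s), Function.update_self]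
      congr 1
      refine prod_congr rfl fun s' hs' => ?_
      rw [Function.update_of_ne (ne_of_mem_erase hs'), Int.card_Ioc]
      omega
    have e2 : ∏ s', B s' = B s * ∏ s' ∈ univ.erase s, B s' := (mul_prod_erase univ _ (mem_univ s)).symm
    rw [e1, e2]
    have e3 := edge (u s) (w s) (B s)
    have e4 : (((Ioc (u s) (u s + (B s : ℤ))).filter fun x => x - w s ∉ Ioc (u s) (u s + (B s : ℤ))).card : ℝ) ≤
        |(w s : ℝ)| := by
      have : ((w s).natAbs : ℝ) = |(w s : ℝ)| := by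
        rw [Nat.cast_natAbs, Int.cast_abs]
      rw [← this]
      exact_mod_cast e3
    push_cast
    calc (((Ioc (u s) (u s + (B s : ℤ))).filter fun x => x - w s ∉ Ioc (u s) (u s + (B s : ℤ))).card : ℝ) *
          ∏ s' ∈ univ.erase s, (B s' : ℝ) ≤ |(w s : ℝ)| * ∏ s' ∈ univ.erase s, (B s' : ℝ) :=
          mul_le_mul_of_nonneg_right e4 (prod_nonneg fun _ _ => Nat.cast_nonneg _)
      _ = |(w s : ℝ)| / B s * (B s * ∏ s' ∈ univ.erase s, (B s' : ℝ)) := by
          field_simp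
  calc (((fbox u B).filter fun y => y - w ∉ fbox u B).card : ℝ) ≤ (((univ : Finset (Fin D)).biUnion fun s =>
      Fintype.piFinset (Function.update (fun s => Ioc (u s) (u s + (B s : ℤ))) s
        ((Ioc (u s) (u s + (B s : ℤ))).filter fun x => x - w s ∉ Ioc (u s) (u s + (B s : ℤ))))).card : ℝ) := by
        exact_mod_cast card_le_card h1
    _ ≤ ∑ s, ((Fintype.piFinset (Function.update (fun s => Ioc (u s) (u s + (B s : ℤ))) s
        ((Ioc (u s) (u s + (B s : ℤ))).filter fun x => x - w s ∉ Ioc (u s) (u s + (B s : ℤ))))).card : ℝ) := by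
        exact_mod_cast card_biUnion_le
    _ ≤ ∑ s, |(w s : ℝ)| / B s * (fbox u B).card := sum_le_sum fun s _ => h2 s
    _ = (∑ s, |(w s : ℝ)| / B s) * (fbox u B).card := by rw [sum_mul]

/-- the sums over boxes change little under short shifts -/
lemma shift_sum {D : ℕ} (u : Fin D → ℤ) (B : Fin D → ℕ) (hB : ∀ s, 0 < B s) (w : Fin D → ℤ) (g : (Fin D → ℤ) → ℝ)
    (hg : ∀ y, |g y| ≤ 1) : |∑ y ∈ fbox u B, g y - ∑ y ∈ fbox u B, g (y + w)| ≤
      2 * (∑ s, |(w s : ℝ)| / B s) * (fbox u B).card := by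
  classical
  set S := fbox u B with hS
  have h1 : ∑ y ∈ S, g (y + w) = ∑ y ∈ S.image (fun y => y + w), g y := by
    rw [sum_image]
    intro a _ b _ h
    simpa using h
  rw [h1, ← sum_sdiff_sub_sum_sdiff]
  have h2 : S \ S.image (fun y => y + w) = S.filter fun y => y - w ∉ S := by
    ext y
    rw [Finset.mem_sdiff, mem_filter, mem_image]
    constructor
    · rintro ⟨h3, h4⟩
      exact ⟨h3, fun h5 => h4 ⟨y - w, h5, by abel⟩⟩
    · rintro ⟨h3, h4⟩
      refine ⟨h3, ?_⟩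
      rintro ⟨a, ha, rfl⟩
      apply h4
      rw [add_sub_cancel_right]
      exact ha
  have h3 : (S.image (fun y => y + w) \ S).card = (S \ S.image (fun y => y + w)).card := by
    have e1 := card_sdiff_add_card_inter (S.image fun y => y + w) S
    have e2 := card_sdiff_add_card_inter S (S.image fun y => y + w)
    rw [inter_comm] at e2
    have e3 : (S.image fun y => y + w).card = S.card := card_image_of_injective _ fun a b h => by simpa using h
    omega
  have h4 : ∀ T : Finset (Fin D → ℤ), |∑ y ∈ T, g y| ≤ T.card := by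
    intro T
    refine (abs_sum_le_sum_abs _ _).trans ((sum_le_sum fun y _ => hg y).trans ?_)
    simp
  have h5 := h4 (S \ S.image (fun y => y + w))
  have h6 := h4 (S.image (fun y => y + w) \ S)
  rw [h3, h2] at h6
  rw [h2] at h5
  have h7 := shift_box u B hB w
  have h8 := abs_sub (∑ y ∈ S \ S.image (fun y => y + w), g y) (∑ y ∈ S.image (fun y => y + w) \ S, g y)
  rw [h2] at h8 ⊢
  rw [← hS] at h7
  linarith

lemma inv_box {D : ℕ} (u : Fin D → ℤ) (B : Fin D → ℕ) (hB : ∀ s, 0 < B s) (v : Fin D → ℤ) (H : ℕ) (δ : ℝ)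
    (hδ : 2 * (∑ s, (H : ℝ) * |(v s : ℝ)| / B s) ≤ δ) : Inv (fbox u B) v H δ := by
  intro h g hg
  refine (shift_sum u B hB _ g hg).trans ?_
  apply mul_le_mul_of_nonneg_right _ (Nat.cast_nonneg _)
  refine le_trans ?_ hδ
  apply mul_le_mul_of_nonneg_left _ (by norm_num)
  refine sum_le_sum fun s _ => ?_
  apply div_le_div_of_nonneg_right _ (Nat.cast_nonneg _)
  rw [Pi.smul_apply, smul_eq_mul]
  push_cast
  rw [abs_mul, Nat.abs_cast]
  apply mul_le_mul_of_nonneg_right _ (abs_nonneg _)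
  exact_mod_cast h.2.le

/-- the scales at which the theorem fails -/
def BadF {k D t : ℕ} (φ : Fin k → Fin D → ℤ) (b : Fin k → ℤ) (v : Fin t → Fin D → ℤ) (R : ℕ) (ε : ℝ) : Set ℕ :=
  {M | ∃ (u : Fin D → ℤ) (B : Fin D → ℕ) (F : Fin t → (Fin D → ℤ) → ℝ), (∀ s, |u s| ≤ (R : ℤ) * M ∧ B s ≤ R * M) ∧
    (∀ i y, |F i y| ≤ 1) ∧ (∀ i y, F i (y + v i) = F i y) ∧
    ε * (M : ℝ) ^ D < |∑ y ∈ fbox u B, ff φ b y * ∏ i, F i y|}

end Pool.Agent.H614.GV
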