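import Pool.Agent.H614.GV.Erg

/-!
The products and the sign patterns of the Liouville function at linear forms as weights.
-/

set_option autoImplicit false

namespace Pool.Agent.H614.GV

open Finset Filter Topology MeasureTheory
open Pool.Agent.Results.MP_a14ce1_nt.FixedShiftPatterns renaming box → fbox
open Pool.Agent.Results.MP_a14ce1_nt.FixedShiftPatterns (lam aff cls NotProp)
open Pool.Agent.Y958.U (LZ LZ_iff LZ_union LZ_bdd LZ_sub LZ_empty ls ls_eq li)

/-- the product of the values -/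
noncomputable def wP {k : ℕ} (a b : Fin k → ℕ) (n : ℕ) : ℝ :=
  ∏ j, (-1 : ℝ) ^ ArithmeticFunction.cardFactors (a j * n + b j)

open Classical in
/-- the indicator function of the pattern minus its expected value -/
noncomputable def wS {k : ℕ} (a b : Fin k → ℕ) (s : Fin k → ℝ) (n : ℕ) : ℝ :=
  (if ∀ j, (-1 : ℝ) ^ ArithmeticFunction.cardFactors (a j * n + b j) = s j then 1 else 0) - 1 / 2 ^ k

lemma wP_le {k : ℕ} (a b : Fin k → ℕ) (n : ℕ) : |wP a b n| ≤ 1 := by
  unfold wP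
  rw [abs_prod]
  simp

lemma wS_le {k : ℕ} (a b : Fin k → ℕ) (s : Fin k → ℝ) (n : ℕ) : |wS a b s n| ≤ 1 := by
  unfold wS
  have h1 : (0 : ℝ) < 1 / 2 ^ k := by positivity
  have h2 : (1 : ℝ) / 2 ^ k ≤ 1 := by
    rw [div_le_one (by positivity)]
    exact one_le_pow₀ (by norm_num)
  split_ifs <;> rw [abs_le] <;> constructor <;> linarith

/-- the forms in several variables -/
def ph {k : ℕ} (t : ℕ) (a : Fin k → ℕ) (j : Fin k) : Fin (t + 1) → ℤ := Fin.cons (a j : ℤ) 0

lemma aff_ph {k : ℕ} (t : ℕ) (a b : Fin k → ℕ) (j : Fin k) (y : Fin (t + 1) → ℤ) :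
    aff (ph t a j) (b j : ℤ) y = a j * y 0 + b j := by
  unfold aff ph
  rw [Fin.sum_univ_succ]
  simp

lemma lam_ph {k : ℕ} (t : ℕ) (a b : Fin k → ℕ) (j : Fin k) (y : Fin (t + 1) → ℤ) (hy : 0 ≤ y 0) :
    lam (aff (ph t a j) (b j : ℤ) y) = (-1 : ℝ) ^ ArithmeticFunction.cardFactors (a j * (y 0).toNat + b j) := by
  rw [aff_ph]
  unfold lam
  congr 2
  have : (a j : ℤ) * y 0 + b j = ((a j * (y 0).toNat + b j : ℕ) : ℤ) := by
    push_cast
    rw [Int.toNat_of_nonneg hy]
  rw [this, Int.natAbs_natCast]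

lemma ph_ne {k : ℕ} (t : ℕ) (a : Fin k → ℕ) (ha : ∀ j, 1 ≤ a j) (j : Fin k) : ph t a j ≠ 0 := by
  intro h
  have := congrFun h 0
  unfold ph at this
  simp only [Fin.cons_zero, Pi.zero_apply] at this
  have h2 := ha j
  omega

lemma dot_ph {k : ℕ} (t : ℕ) (a : Fin k → ℕ) (j : Fin k) (i : Fin (t + 1)) : dot (ph t a j) (vv t i) = a j := by
  unfold dot ph vv
  rw [Fin.sum_univ_succ]
  refine Fin.cases ?_ (fun i => ?_) i
  · simp
  · simp

lemma par_ph {k : ℕ} (t : ℕ) (a : Fin k → ℕ) (i j : Fin k) (s s' : Fin (t + 1)) :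
    ph t a i s * ph t a j s' = ph t a i s' * ph t a j s := by
  unfold ph
  refine Fin.cases ?_ (fun s => ?_) s
  · refine Fin.cases ?_ (fun s' => ?_) s'
    · rfl
    · simp
  · refine Fin.cases ?_ (fun s' => ?_) s'
    · simp
    · simp

lemma cls_ph {k : ℕ} (t : ℕ) (a : Fin k → ℕ) (j : Fin k) : (cls (ph t a) j).card = k := by
  have : cls (ph t a) j = univ := by
    unfold cls
    rw [filter_eq_self]
    intro i _ s s'
    exact par_ph t a i j s s'
  rw [this, card_univ, Fintype.card_fin]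

lemma np_ph {k : ℕ} (t : ℕ) (a b : Fin k → ℕ) (i j : Fin k) (h : a i * b j ≠ a j * b i) :
    NotProp (ph t a) (fun j => (b j : ℤ)) i j := by
  right
  refine ⟨0, ?_⟩
  unfold ph
  simp only [Fin.cons_zero]
  exact_mod_cast h

lemma box_pos {t : ℕ} (N : ℕ) (y : Fin (t + 1) → ℤ) (hy : y ∈ fbox (fun _ : Fin (t + 1) => 0) fun _ => N) : 0 ≤ y 0 := by
  unfold fbox at hy
  rw [Fintype.mem_piFinset] at hy
  exact (mem_Ioc.1 (hy 0)).1.le

/-- **one exceptional set for all the weights** -/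
theorem weights : ∃ E : Set ℕ, LZ E ∧ ∀ (k : ℕ) (a b : Fin k → ℕ), (∀ j, 1 ≤ a j) →
    (∀ i j, i ≠ j → a i * b j ≠ a j * b i) →
    ((Odd k ∨ k = 2) → Orth E (wP a b)) ∧
    (k ≤ 3 → ∀ s : Fin k → ℝ, (∀ j, s j = 1 ∨ s j = -1) → Orth E (wS a b s)) := by
  obtain ⟨E, hE, h1⟩ := single
  refine ⟨E, hE, fun k a b ha hab => ⟨fun hk t ε hε => ?_, fun hk s hs t ε hε => ?_⟩⟩
  · have hk1 : 0 < k := by
      rcases hk with h | h
      · exact h.pos
      · omega
    obtain ⟨N₀, hN₀⟩ := h1 (t + 1) k (t + 1) (ph t a) (fun j => (b j : ℤ)) (vv t) ⟨0, hk1⟩ (ph_ne t a ha) (by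
      unfold GoodAt
      rw [cls_ph]
      rcases hk with h | h
      · exact Or.inl h
      · right
        subst h
        refine ⟨rfl, 1, ?_, ?_⟩
        · unfold cls
          rw [mem_filter]
          exact ⟨mem_univ _, fun s s' => par_ph t a _ _ s s'⟩
        · exact np_ph t a b 1 0 (hab 1 0 (by decide))) (fun i => by
      rw [dot_ph]
      have := ha ⟨0, hk1⟩
      omega) 1 ε hε
    refine ⟨N₀, fun N hN hNE F hF1 hF => ?_⟩
    have h2 := hN₀ N hN hNE (fun _ => 0) (fun _ => N) F (fun s => ⟨by rw [abs_zero]; positivity, by rw [one_mul]⟩) hF1 hF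
    refine le_trans (le_of_eq ?_) h2
    congr 1
    refine sum_congr rfl fun y hy => ?_
    congr 1
    unfold wP ff
    refine prod_congr rfl fun j _ => ?_
    rw [lam_ph t a b j y (box_pos N y hy)]
  · obtain ⟨N₀, hN₀⟩ := patterns h1 (t + 1) k (t + 1) (ph t a) (fun j => (b j : ℤ)) (vv t) (ph_ne t a ha)
      (fun i j hij => np_ph t a b i j (hab i j hij)) (fun j => by rw [cls_ph]; exact hk) (fun j i => by
        rw [dot_ph]
        have := ha j
        omega) 1 ε hε
    refine ⟨N₀, fun N hN hNE F hF1 hF => ?_⟩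
    have h2 := hN₀ N hN hNE (fun _ => 0) (fun _ => N) F s (fun s => ⟨by rw [abs_zero]; positivity, by rw [one_mul]⟩)
      hF1 hF hs
    refine le_trans (le_of_eq ?_) h2
    congr 1
    refine sum_congr rfl fun y hy => ?_
    congr 1
    unfold wS iP
    have h3 : (∀ j, (-1 : ℝ) ^ ArithmeticFunction.cardFactors (a j * (y 0).toNat + b j) = s j) ↔
        Pt (ph t a) (fun j => (b j : ℤ)) s y := by
      unfold Pt
      refine forall_congr' fun j => ?_
      rw [lam_ph t a b j y (box_pos N y hy)]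
    by_cases h4 : Pt (ph t a) (fun j => (b j : ℤ)) s y
    · rw [if_pos h4, if_pos (h3.2 h4)]
    · rw [if_neg h4, if_neg fun h => h4 (h3.1 h)]

end Pool.Agent.H614.GV
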